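import Pool.Agent.X31.S4
import Pool.Agent.TH935.GF

set_option autoImplicit false

/-! # Properties which follow from the Hardy-Littlewood formula in all long windows hold for almost all members of the
families of small energy -/

namespace Pool.Agent.X275.GB

open Finset Pool.Agent.H560R3.GB

lemma famP_of_win (A m₀ : ℕ) (ε : ℝ) (hε : 0 < ε) (P : ℕ → Prop)
    (hP : ∀ m : ℕ, m₀ ≤ m → 2 ∣ m → Pool.Agent.W93.PG.WinP ε A m → P m) :
    ∀ h : ℕ, 1 ≤ h → Pool.Agent.X31.FamP h P :=
  fun h hh B C U => Pool.Agent.TH935.GF.fam_win h B C A U m₀ hh ε hε P hP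

lemma log_ge {m : ℕ} {K : ℝ} {m₀ : ℕ} (h : (Real.exp K) ≤ m₀) (hm : m₀ ≤ m) : K ≤ Real.log m := by
  have h1 : Real.exp K ≤ m := h.trans (by exact_mod_cast hm)
  rw [← Real.log_exp K]
  exact Real.log_le_log (Real.exp_pos K) h1

end Pool.Agent.X275.GB
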