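import Pool.Agent.X275.GB.PS
import Pool.Agent.Results.MP_122e00_nt.PowerSavingShifts

set_option autoImplicit false

/-! # Correlations of divisor functions: almost all shifts near the members of a family of minimal energy -/

namespace Pool.Agent.X275.GB.DV

open Finset Polynomial Pool.Agent.Results.MP_122e00_nt.PowerSavingShifts Pool.Agent.X275.GB.PS

lemma asymp_mono (r N : ℕ) (hN : 1 ≤ N) (P : ℕ → ℝ[X]) (T : ℤ → ℝ[X]) (θ θ' η : ℝ) (hθ : θ' ≤ θ) (h : ℤ)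
    (hA : Asymp r N P T θ η h) : Asymp r N P T θ' η h := by
  intro x hx
  obtain ⟨h1, h2⟩ := hA x hx
  exact ⟨h1.trans (Real.rpow_le_rpow_of_exponent_le (by exact_mod_cast hN) (by linarith)), h2⟩

open Classical in
/-- The transfer from families of small energy to the schemes. -/
theorem transfer {ι : Type} {Q : ℝ → ℕ → Finset ι → (ι → ℝ) → Prop} (HS : PSch Q) (r : ℕ) (P : ℕ → ℝ[X]) (T : ℤ → ℝ[X])
    (H : ∀ p B : ℕ, ∃ θ : ℝ, 0 < θ ∧ ∀ η : ℝ, 0 < η → η ≤ θ → ∃ N₀ : ℕ, ∀ N : ℕ, N₀ ≤ N → ∀ (ι : Type) [Fintype ι] (v : ι → ℤ),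
      (∀ i, |v i| ≤ B * N) → (energy p v : ℝ) * N ≤ (N : ℝ) ^ θ * (Fintype.card ι : ℝ) ^ (2 * p) →
      ((univ.filter (fun i : ι => v i ≠ 0 ∧ ¬ Asymp r N P T θ η (v i))).card : ℝ) ≤ (N : ℝ) ^ (-θ) * Fintype.card ι) :
    ∃ θ : ℝ, 0 < θ ∧ ∀ η : ℝ, 0 < η → η ≤ θ → ∃ N₀ : ℕ, ∀ N : ℕ, N₀ ≤ N → ∀ (A : Finset ι) (φ : ι → ℝ),
      Q ((N : ℝ) ^ θ) N A φ → ∃ E : Finset ι, (E.card : ℝ) ≤ (N : ℝ) ^ (-θ) * A.card ∧ ∀ n ∈ A, n ∉ E →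
        ∀ h : ℤ, h ≠ 0 → |(h : ℝ) - φ n| ≤ (N : ℝ) ^ θ → Asymp r N P T θ η h := by
  obtain ⟨h₀, κ, hh₀, hS⟩ := HS
  obtain ⟨θ₀, hθ₀, h1⟩ := H h₀ 2
  obtain ⟨θ, hθ⟩ : ∃ θ : ℝ, θ = min (θ₀ / (κ + 1)) (1 / 2) := ⟨_, rfl⟩
  have hθp : 0 < θ := by rw [hθ]; exact lt_min (by positivity) (by norm_num)
  have hθh : θ ≤ 1 / 2 := by rw [hθ]; exact min_le_right _ _
  have hθκ : θ * (κ + 1) ≤ θ₀ := by
    rw [← le_div_iff₀ (by positivity), hθ]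
    exact min_le_left _ _
  have hθ0 : θ ≤ θ₀ := by nlinarith [show (0 : ℝ) ≤ κ from Nat.cast_nonneg _]
  refine ⟨θ, hθp, fun η hη hηθ => ?_⟩
  obtain ⟨N₁, h2⟩ := hS θ hθp hθh
  obtain ⟨N₂, h3⟩ := h1 η hη (hηθ.trans hθ0)
  refine ⟨N₁ + N₂ + 1, fun N hN A φ hQ => ?_⟩
  have hN1 : 1 ≤ N := by omega
  have hNr : (1 : ℝ) ≤ N := by exact_mod_cast hN1
  have hL1 : 1 ≤ (N : ℝ) ^ θ := Real.one_le_rpow hNr hθp.le
  obtain ⟨E, hE⟩ : ∃ E : Finset ι, E = A.filter (fun n : ι => ∃ h : ℤ, h ≠ 0 ∧ |(h : ℝ) - φ n| ≤ (N : ℝ) ^ θ ∧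
      ¬ Asymp r N P T θ η h) := ⟨_, rfl⟩
  refine ⟨E, ?_, ?_⟩
  swap
  · intro n hn hnE h hh0 hh
    by_contra hcon
    apply hnE
    rw [hE]
    exact mem_filter.2 ⟨hn, h, hh0, hh, hcon⟩
  have hch : ∀ n ∈ E, ∃ h : ℤ, h ≠ 0 ∧ |(h : ℝ) - φ n| ≤ (N : ℝ) ^ θ ∧ ¬ Asymp r N P T θ η h := by
    intro n hn
    rw [hE] at hn
    exact (mem_filter.1 hn).2
  choose! z hz using hch
  have hEA : E ⊆ A := by rw [hE]; exact filter_subset _ _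
  obtain ⟨v, hv1, hv2⟩ : ∃ v : {n : ι // n ∈ A} → ℤ, (∀ i, |(v i : ℝ) - φ i.1| ≤ (N : ℝ) ^ θ) ∧
      ∀ i, i.1 ∈ E → v i = z i.1 := by
    refine ⟨fun i => if i.1 ∈ E then z i.1 else ⌊φ i.1⌋, fun i => ?_, fun i hi => ?_⟩
    · by_cases h : i.1 ∈ E
      · simp only [if_pos h]
        exact (hz i.1 h).2.1
      · simp only [if_neg h]
        have h1 := Int.floor_le (φ i.1)
        have h2 := Int.lt_floor_add_one (φ i.1)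
        rw [abs_le]
        constructor <;> linarith
    · simp only [if_pos hi]
  obtain ⟨e1, e2⟩ := h2 N (by omega) A φ hQ v hv1
  have key := h3 N (by omega) {n : ι // n ∈ A} v (by
    intro i
    exact_mod_cast e1 i) (by
    refine le_trans e2 ?_
    apply mul_le_mul_of_nonneg_right _ (by positivity)
    rw [← Real.rpow_natCast, ← Real.rpow_mul (by linarith)]
    exact Real.rpow_le_rpow_of_exponent_le hNr (by nlinarith))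
  rw [Fintype.card_coe] at key
  have hN2 : (N : ℝ) ^ (-θ₀) ≤ (N : ℝ) ^ (-θ) := Real.rpow_le_rpow_of_exponent_le hNr (by linarith)
  refine le_trans (le_trans ?_ key) (mul_le_mul_of_nonneg_right hN2 (Nat.cast_nonneg _))
  apply Nat.cast_le.2
  apply card_le_card_of_surjOn (fun i : {n : ι // n ∈ A} => i.1)
  intro n hn
  have hn' := mem_coe.1 hn
  refine ⟨⟨n, hEA hn'⟩, ?_, rfl⟩
  rw [mem_coe, mem_filter]
  obtain ⟨g1, g2, g3⟩ := hz n hn'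
  have hvn : v ⟨n, hEA hn'⟩ = z n := hv2 ⟨n, hEA hn'⟩ hn'
  rw [hvn]
  exact ⟨mem_univ _, g1, fun hA => g3 (asymp_mono r N hN1 P T θ₀ θ η hθ0 _ hA)⟩

end Pool.Agent.X275.GB.DV
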