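import Pool.Agent.X275.GB.Base

set_option autoImplicit false

/-! # Goldbach partitions with the smaller prime in prescribed windows of `(√m, m / 2]` -/

namespace Pool.Agent.X275.GB.K73

open Finset Pool.Agent.H560R3.GB

/-- The number of the primes `p` with `y₁ < p ≤ y₂` for which `m - p` is a prime. -/
def cnt (m y₁ y₂ : ℕ) : ℕ := ((Ioc y₁ y₂).filter (fun p => p.Prime ∧ (m - p).Prime)).card

/-- (1) There is a prime `p` with `√m < p ≤ m / 2` for which `m - p` is a prime. (2) More precisely, every window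
`(y₁, y₂]` with `√m ≤ y₁`, `y₂ ≤ m / 2` and `y₂ - y₁ ≥ m / log ^ A m` contains such a prime, and the number of these primes
is `sing m * (y₂ - y₁) / log ^ 2 m` up to a relative error of at most `ε`. -/
def Holds (ε : ℝ) (A m : ℕ) : Prop :=
  (∃ p : ℕ, p.Prime ∧ (m - p).Prime ∧ Real.sqrt m < p ∧ 2 * p ≤ m) ∧
  ∀ y₁ y₂ : ℕ, Real.sqrt m ≤ y₁ → 2 * y₂ ≤ m → (m : ℝ) / Real.log m ^ A ≤ (y₂ : ℝ) - y₁ →
    (∃ p : ℕ, y₁ < p ∧ p ≤ y₂ ∧ p.Prime ∧ (m - p).Prime) ∧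
    |(cnt m y₁ y₂ : ℝ) - sing m * ((y₂ : ℝ) - y₁) / Real.log m ^ 2| ≤
      ε * (sing m * ((y₂ : ℝ) - y₁) / Real.log m ^ 2)

lemma holds_of (A : ℕ) (ε : ℝ) (hε : 0 < ε) : ∃ m₀ : ℕ, ∀ m : ℕ, m₀ ≤ m → 2 ∣ m →
    Pool.Agent.W93.PG.WinP (min ε (1 / 2)) (A + 1) m → Holds ε A m := by
  obtain ⟨n1, hn1⟩ := exists_nat_ge (Real.exp 8)
  refine ⟨n1 + 200, fun m hm _ hwin => ?_⟩
  have hL : 8 ≤ Real.log m := log_ge hn1 (by omega)
  have hm200 : (200 : ℝ) ≤ m := by exact_mod_cast (by omega : 200 ≤ m)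
  have hm0 : (0 : ℝ) < m := by linarith
  obtain ⟨e, he⟩ : ∃ e, e = min ε (1 / 2) := ⟨_, rfl⟩
  have he1 : e ≤ ε := by rw [he]; exact min_le_left _ _
  have he2 : e ≤ 1 / 2 := by rw [he]; exact min_le_right _ _
  rw [← he] at hwin
  unfold Pool.Agent.W93.PG.WinP at hwin
  have hs := Pool.Agent.W93.GB.one_le_sing m
  have main : ∀ y₁ y₂ : ℕ, y₂ ≤ m → (m : ℝ) / Real.log m ^ (A + 1) ≤ (y₂ : ℝ) - y₁ →
      (∃ p : ℕ, y₁ < p ∧ p ≤ y₂ ∧ p.Prime ∧ (m - p).Prime) ∧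
      |(cnt m y₁ y₂ : ℝ) - sing m * ((y₂ : ℝ) - y₁) / Real.log m ^ 2| ≤
        ε * (sing m * ((y₂ : ℝ) - y₁) / Real.log m ^ 2) := by
    intro y₁ y₂ hy2 hlen
    have hpos : 0 < (y₂ : ℝ) - y₁ := lt_of_lt_of_le (by positivity) hlen
    have hlt : y₁ < y₂ := by
      have : (y₁ : ℝ) < y₂ := by linarith
      exact_mod_cast this
    have h1 := hwin y₁ y₂ hlt hy2 hlen
    have hc : Pool.Agent.W93.PG.cnt m y₁ y₂ = cnt m y₁ y₂ := rfl
    rw [hc] at h1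
    have hT : 0 < sing m * ((y₂ : ℝ) - y₁) / Real.log m ^ 2 := by positivity
    refine ⟨?_, h1.trans (mul_le_mul_of_nonneg_right he1 hT.le)⟩
    have h2 : (0 : ℝ) < cnt m y₁ y₂ := by
      rw [abs_le] at h1
      nlinarith [h1.1]
    have h3 : 0 < cnt m y₁ y₂ := by exact_mod_cast h2
    unfold cnt at h3
    rw [card_pos] at h3
    obtain ⟨p, hp⟩ := h3
    rw [mem_filter, mem_Ioc] at hp
    exact ⟨p, hp.1.1, hp.1.2, hp.2.1, hp.2.2⟩
  have hpow : Real.log m ≤ Real.log m ^ (A + 1) := by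
    calc Real.log m = Real.log m ^ 1 := (pow_one _).symm
      _ ≤ Real.log m ^ (A + 1) := pow_le_pow_right₀ (by linarith) (by omega)
  constructor
  · have hsq : Real.sqrt m ≤ m / 14 := by
      rw [Real.sqrt_le_left (by positivity)]
      nlinarith
    have hy1 : ((⌈Real.sqrt (m : ℝ)⌉₊ : ℕ) : ℝ) ≤ m / 14 + 1 := by
      have := Nat.ceil_lt_add_one (Real.sqrt_nonneg (m : ℝ))
      linarith
    have hy2 : (m : ℝ) / 2 - 1 ≤ ((m / 2 : ℕ) : ℝ) := by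
      have h1 : m ≤ 2 * (m / 2) + 1 := by omega
      have h2 : (m : ℝ) ≤ 2 * ((m / 2 : ℕ) : ℝ) + 1 := by exact_mod_cast h1
      linarith
    have hq : (m : ℝ) / Real.log m ^ (A + 1) ≤ m / 8 :=
      div_le_div_of_nonneg_left hm0.le (by norm_num) (by linarith)
    obtain ⟨⟨p, p1, p2, p3, p4⟩, -⟩ := main ⌈Real.sqrt (m : ℝ)⌉₊ (m / 2) (Nat.div_le_self m 2) (by linarith)
    refine ⟨p, p3, p4, ?_, by omega⟩
    have h1 := Nat.le_ceil (Real.sqrt (m : ℝ))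
    have h2 : ((⌈Real.sqrt (m : ℝ)⌉₊ : ℕ) : ℝ) < p := by exact_mod_cast p1
    linarith
  · intro y₁ y₂ _ hy2 hlen
    apply main y₁ y₂ (by omega)
    refine le_trans ?_ hlen
    apply div_le_div_of_nonneg_left hm0.le (by positivity)
    exact pow_le_pow_right₀ (by linarith) (by omega)

/-- The assertion holds for almost all members of the families of small energy. -/
theorem famP (A : ℕ) (ε : ℝ) (hε : 0 < ε) : ∀ h : ℕ, 1 ≤ h → Pool.Agent.X31.FamP h (Holds ε A) := by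
  obtain ⟨m₀, h0⟩ := holds_of A ε hε
  exact famP_of_win (A + 1) m₀ (min ε (1 / 2)) (lt_min hε (by norm_num)) (Holds ε A) h0

end Pool.Agent.X275.GB.K73
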