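import Pool.Agent.X275.GB.Base

set_option autoImplicit false

/-! # Small prime summands and short windows of small primes (adapted from the starting file
`Results/MP_bae66e_nt/ThinFamilySmallPrimes`) -/

namespace Pool.Agent.X275.GB.KBA

open Finset Pool.Agent.H560R3.GB

/-- The number of primes `p` with `y₁ < p ≤ y₂` such that `m - p` is a prime. -/
def R (m y₁ y₂ : ℕ) : ℕ := ((Ioc y₁ y₂).filter (fun p => p.Prime ∧ (m - p).Prime)).card

/-- (1) There is a prime `p ≤ m / log ^ A m` such that `m - p` is a prime (thus `g(m) ≤ m / log ^ A m`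
in the notation of the problem); (2) in every window `(y₁, y₂]` of a length of at least `m / log ^ A m`
with `0 ≤ y₁ < y₂ ≤ m / log m` the number of primes `p` such that `m - p` is a prime agrees with
`sing m * (y₂ - y₁) / log ^ 2 m` up to a relative error of at most `ε`. -/
def Holds (ε : ℝ) (A m : ℕ) : Prop :=
  (∃ p : ℕ, p.Prime ∧ (m - p).Prime ∧ (p : ℝ) ≤ m / Real.log m ^ A) ∧
  ∀ y₁ y₂ : ℕ, y₁ < y₂ → (y₂ : ℝ) ≤ m / Real.log m → (m : ℝ) / Real.log m ^ A ≤ (y₂ : ℝ) - y₁ →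
    |(R m y₁ y₂ : ℝ) - sing m * ((y₂ : ℝ) - y₁) / Real.log m ^ 2| ≤ ε * (sing m * ((y₂ : ℝ) - y₁) / Real.log m ^ 2)

/-- The assertion holds for almost all members of the families of small energy. -/
theorem famP (A : ℕ) (ε : ℝ) (hε : 0 < ε) : ∀ h : ℕ, 1 ≤ h → Pool.Agent.X31.FamP h (Holds ε A) := by
  classical
  obtain ⟨n1, h1⟩ := Pool.Agent.H373R2.T7.ev_L' 2
  obtain ⟨n2, h2⟩ := Pool.Agent.H373R2.T7.ev_log' (A + 1) 1
  have hP : ∀ m : ℕ, n1 + n2 + 4 ≤ m → 2 ∣ m → Pool.Agent.W93.PG.WinP (min ε (1 / 2)) (A + 1) m → Holds ε A m := by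
    intro m hm _ hwin
    have a1 := h1 m (by omega)
    have a2 := h2 m (by omega)
    have hm4 : (4 : ℝ) ≤ m := by exact_mod_cast (by omega : 4 ≤ m)
    have hm0 : (0 : ℝ) < m := by linarith
    rw [one_mul] at a2
    obtain ⟨M, hM⟩ : ∃ M, M = Real.log (m : ℝ) := ⟨_, rfl⟩
    have hs := Pool.Agent.W93.GB.one_le_sing m
    unfold Pool.Agent.W93.PG.WinP at hwin
    unfold Holds
    rw [← hM] at a1 a2 hwin ⊢
    have hM1 : 1 ≤ M := by linarith
    have hM0 : 0 < M := by linarith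
    have hmm : √(m : ℝ) * √(m : ℝ) = m := Real.mul_self_sqrt hm0.le
    have hsm0 : 0 < √(m : ℝ) := Real.sqrt_pos.2 hm0
    have hle : (m : ℝ) / M ^ (A + 1) ≤ m / M ^ A := by
      apply div_le_div_of_nonneg_left hm0.le (by positivity)
      exact pow_le_pow_right₀ hM1 (by omega)
    have hR : ∀ y₁ y₂, Pool.Agent.W93.PG.cnt m y₁ y₂ = R m y₁ y₂ := fun _ _ => rfl
    simp only [hR] at hwin
    have hsm : √(m : ℝ) ≤ m / M ^ (A + 1) := by
      rw [le_div_iff₀ (by positivity)]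
      calc √(m : ℝ) * M ^ (A + 1) ≤ √(m : ℝ) * √(m : ℝ) := mul_le_mul_of_nonneg_left a2 hsm0.le
        _ = m := hmm
    have hsm2 : 2 ≤ √(m : ℝ) := by
      apply Real.le_sqrt_of_sq_le
      linarith
    constructor
    · obtain ⟨y, hy⟩ : ∃ y, y = ⌈(m : ℝ) / M ^ (A + 1)⌉₊ := ⟨_, rfl⟩
      have hy1 : (m : ℝ) / M ^ (A + 1) ≤ y := by rw [hy]; exact Nat.le_ceil _
      have hy2 : (y : ℝ) ≤ m / M ^ (A + 1) + 1 := by rw [hy]; exact (Nat.ceil_lt_add_one (by positivity)).le
      have hy3 : (y : ℝ) ≤ m / M ^ A := by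
        have e : (m : ℝ) / M ^ A = m / M ^ (A + 1) * M := by rw [pow_succ]; field_simp
        have h5 : (m : ℝ) / M ^ (A + 1) * 2 ≤ m / M ^ (A + 1) * M := mul_le_mul_of_nonneg_left a1 (by positivity)
        rw [e]
        linarith
      have hy4 : y ≤ m := by
        have h5 : (m : ℝ) / M ^ A ≤ m := div_le_self hm0.le (one_le_pow₀ hM1)
        exact_mod_cast hy3.trans h5
      have hy0 : 0 < y := by
        have : (0 : ℝ) < y := by linarith
        exact_mod_cast this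
      have hw := hwin 0 y hy0 hy4 (by push_cast; linarith)
      have hmain : 0 < sing m * ((y : ℝ) - (0 : ℕ)) / M ^ 2 := by
        have : (0 : ℝ) < (y : ℝ) - (0 : ℕ) := by push_cast; linarith
        positivity
      have h6 : |(R m 0 y : ℝ) - sing m * ((y : ℝ) - (0 : ℕ)) / M ^ 2| ≤ 1 / 2 * (sing m * ((y : ℝ) - (0 : ℕ)) / M ^ 2) :=
        hw.trans (mul_le_mul_of_nonneg_right (min_le_right _ _) hmain.le)
      have h7 : (0 : ℝ) < R m 0 y := by
        rw [abs_le] at h6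
        linarith [h6.1]
      have h8 : 0 < R m 0 y := by exact_mod_cast h7
      unfold R at h8
      rw [card_pos] at h8
      obtain ⟨p, hp⟩ := h8
      rw [mem_filter, mem_Ioc] at hp
      have h9 : (p : ℝ) ≤ y := by exact_mod_cast hp.1.2
      exact ⟨p, hp.2.1, hp.2.2, h9.trans hy3⟩
    · intro y₁ y₂ h12 hy2 hΔ
      have hy2' : y₂ ≤ m := by
        have : (y₂ : ℝ) ≤ m := hy2.trans (div_le_self hm0.le hM1)
        exact_mod_cast this
      have hw := hwin y₁ y₂ h12 hy2' (hle.trans hΔ)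
      refine hw.trans ?_
      apply mul_le_mul_of_nonneg_right (min_le_left _ _)
      have h5 : (0 : ℝ) ≤ (y₂ : ℝ) - y₁ := by
        have : (y₁ : ℝ) ≤ y₂ := by exact_mod_cast h12.le
        linarith
      positivity
  exact famP_of_win (A + 1) (n1 + n2 + 4) (min ε (1 / 2)) (lt_min hε (by norm_num)) (Holds ε A) hP

end Pool.Agent.X275.GB.KBA
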