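import Pool.Agent.X31.S1
import Pool.Agent.TH212.EH.A6

set_option autoImplicit false

/-! # Weighted level of distribution for the residues near the members of a family of minimal energy -/

namespace Pool.Agent.X275.GB.LD

open Finset Filter

/-- `E(x; d, r) = ψ(x; d, r) - x / φ(d)`, where `ψ(x; d, r)` is the sum of `Λ(n)` over the `n ≤ x` with
`n ≡ r (mod d)`. -/
noncomputable def E (x d r : ℕ) : ℝ :=
  ∑ n ∈ (Icc 1 x).filter (fun n : ℕ => n ≡ r [MOD d]), ArithmeticFunction.vonMangoldt n - (x : ℝ) / Nat.totient d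

/-- `τ(d)`: the number of the divisors of `d`. In particular `τ(d) ^ 2 ≥ 3 ^ ν(d)`, where `ν(d)` is the number of
the prime factors of `d`. -/
noncomputable def τ (d : ℕ) : ℝ := d.divisors.card

/-- `N / exp (K (log log N) ^ 2)` -/
noncomputable def level (K N : ℕ) : ℝ := N / Real.exp (K * Real.log (Real.log N) ^ 2)

/-- The sum of `λ(d) E(x(d); d, r)` over the `d ≤ Q` coprime to `r`. -/
noncomputable def weighted (lam : ℕ → ℝ) (x : ℕ → ℕ) (Q r : ℕ) : ℝ :=
  ∑ d ∈ (Icc 1 Q).filter (fun d : ℕ => r.Coprime d), lam d * E (x d) d r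

lemma weighted_eq (lam : ℕ → ℝ) (x : ℕ → ℕ) (Q r : ℕ) : weighted lam x Q r = Pool.Agent.TH212.EH.WW lam x Q r := rfl

lemma weighted_eq' (lam : ℕ → ℝ) (x Q r : ℕ) : weighted lam (fun _ => x) Q r = Pool.Agent.TH212.EH.W lam Q x r := rfl

/-- an integral family near `φ` with prescribed values on a subset -/
lemma choose_v {ι : Type} (A T : Finset ι) (φ : ι → ℝ) (z : ι → ℤ) (R : ℝ) (hR : 1 ≤ R)
    (hz : ∀ n ∈ T, |(z n : ℝ) - φ n| ≤ R) :
    ∃ v : {n : ι // n ∈ A} → ℤ, (∀ i, |(v i : ℝ) - φ i.1| ≤ R) ∧ ∀ i, i.1 ∈ T → v i = z i.1 := by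
  classical
  refine ⟨fun i => if i.1 ∈ T then z i.1 else ⌊φ i.1⌋, fun i => ?_, fun i hi => ?_⟩
  · by_cases h : i.1 ∈ T
    · simp only [if_pos h]
      exact hz i.1 h
    · simp only [if_neg h]
      have h1 := Int.floor_le (φ i.1)
      have h2 := Int.lt_floor_add_one (φ i.1)
      rw [abs_le]
      constructor <;> linarith
  · simp only [if_pos hi]

open Classical in
/-- The three forms of the theorem for a scheme. -/
theorem main {ι : Type} {P : ℕ → ℕ → Finset ι → (ι → ℝ) → Prop} (HS : Pool.Agent.X31.Sch P) (B D T U : ℕ) :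
    ∃ K N₀ : ℕ, ∀ N : ℕ, N₀ ≤ N → ∀ (A : Finset ι) (φ : ι → ℝ), P D N A φ →
      (∀ lam : ℕ → ℝ, (∀ d, |lam d| ≤ (τ d * Real.log N) ^ T) →
        (∃ Ex : Finset ι, (Ex.card : ℝ) ≤ A.card / Real.log N ^ U ∧ ∀ n ∈ A, n ∉ Ex → ∀ r : ℕ, 0 < r →
          |(r : ℝ) - φ n| ≤ Real.log N ^ D → ∀ Q : ℕ, (Q : ℝ) ≤ level K N → ∀ x : ℕ, x ≤ B * N →
            |weighted lam (fun _ => x) Q r| ≤ N / Real.log N ^ U) ∧
        ∀ x : ℕ → ℕ, (∀ d, x d ≤ B * N) →
        ∃ Ex : Finset ι, (Ex.card : ℝ) ≤ A.card / Real.log N ^ U ∧ ∀ n ∈ A, n ∉ Ex → ∀ r : ℕ, 0 < r →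
          |(r : ℝ) - φ n| ≤ Real.log N ^ D → ∀ Q : ℕ, (Q : ℝ) ≤ level K N →
            |weighted lam x Q r| ≤ N / Real.log N ^ U) ∧
      (∀ (r : ι → ℕ) (w : ι → ℝ), (∀ n ∈ A, w n ≠ 0 → 0 < r n ∧ |(r n : ℝ) - φ n| ≤ Real.log N ^ D) →
        (∀ n ∈ A, |w n| ≤ Real.log N ^ T) → ∀ x : ℕ → ℕ, (∀ d, x d ≤ B * N) →
        ∑ d ∈ Icc 1 ⌊level K N⌋₊, τ d ^ T *
          |∑ n ∈ A.filter (fun n => (r n).Coprime d), w n * E (x d) d (r n)| ≤ A.card * N / Real.log N ^ U) := by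
  obtain ⟨p, hp, hen⟩ := HS.en
  obtain ⟨C, n0, h0⟩ := hen D
  obtain ⟨B', hB'⟩ : ∃ B', B' = max B 2 := ⟨_, rfl⟩
  have hB1 : B ≤ B' := by rw [hB']; exact le_max_left _ _
  have hB2 : 2 ≤ B' := by rw [hB']; exact le_max_right _ _
  obtain ⟨K1, n1, h1⟩ := Pool.Agent.TH212.EH.few p B' C T U
  obtain ⟨K2, n2, h2⟩ := Pool.Agent.TH212.EH.dual p B' C T U
  have hlog : ∀ᶠ N : ℕ in atTop, (2 : ℝ) ≤ Real.log N :=
    (Real.tendsto_log_atTop.comp tendsto_natCast_atTop_atTop).eventually_ge_atTop _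
  obtain ⟨n3, h3⟩ := eventually_atTop.1 hlog
  refine ⟨max K1 K2, n0 + n1 + n2 + n3 + 1, fun N hN A φ hP => ?_⟩
  have hL := h3 N (by omega)
  have hL1 : 1 ≤ Real.log N := by linarith
  have hLD : 1 ≤ Real.log N ^ D := one_le_pow₀ hL1
  have hfc : Fintype.card {n // n ∈ A} = A.card := Fintype.card_coe _
  have hBN : B * N ≤ B' * N := Nat.mul_le_mul_right _ hB1
  have hlev1 : level (max K1 K2) N ≤ Pool.Agent.TH212.EH.level K1 N :=
    Pool.Agent.TH212.EH.level_anti K1 _ N (le_max_left _ _)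
  have hlev2 : level (max K1 K2) N ≤ Pool.Agent.TH212.EH.level K2 N :=
    Pool.Agent.TH212.EH.level_anti K2 _ N (le_max_right _ _)
  have hlev0 : 0 ≤ level (max K1 K2) N := by unfold level; positivity
  -- properties of an integral family
  have hfam : ∀ v : {n : ι // n ∈ A} → ℤ, (∀ i, |(v i : ℝ) - φ i.1| ≤ Real.log N ^ D) →
      (∀ i, |v i| ≤ (B' : ℤ) * N) ∧
      (Pool.Agent.TH212.EH.En p v : ℝ) * N ≤ Real.log N ^ C * (Fintype.card {n : ι // n ∈ A} : ℝ) ^ (2 * p) := by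
    intro v hv
    obtain ⟨e1, e2⟩ := h0 N (by omega) A φ hP v hv
    refine ⟨fun i => (e1 i).trans ?_, e2 p le_rfl⟩
    apply mul_le_mul_of_nonneg_right _ (Int.natCast_nonneg _)
    exact_mod_cast hB2
  constructor
  · intro lam hlam
    have hlam' : ∀ q, |lam q| ≤ Real.log N ^ T * (q.divisors.card : ℝ) ^ T := by
      intro q
      refine (hlam q).trans (le_of_eq ?_)
      rw [mul_pow, mul_comm]
      rfl
    constructor
    · obtain ⟨Ex, hEx⟩ : ∃ Ex : Finset ι, Ex = A.filter (fun n : ι => ∃ r : ℕ, 0 < r ∧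
          |(r : ℝ) - φ n| ≤ Real.log N ^ D ∧ ∃ Q : ℕ, (Q : ℝ) ≤ level (max K1 K2) N ∧ ∃ x : ℕ, x ≤ B * N ∧
            N / Real.log N ^ U < |weighted lam (fun _ => x) Q r|) := ⟨_, rfl⟩
      refine ⟨Ex, ?_, ?_⟩
      swap
      · intro n hn hnE r hr hr2 Q hQ x hx
        by_contra hcon
        push Not at hcon
        apply hnE
        rw [hEx]
        exact mem_filter.2 ⟨hn, r, hr, hr2, Q, hQ, x, hx, hcon⟩
      have hch : ∀ n ∈ Ex, ∃ r : ℕ, 0 < r ∧ |(r : ℝ) - φ n| ≤ Real.log N ^ D ∧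
          ∃ Q : ℕ, (Q : ℝ) ≤ level (max K1 K2) N ∧ ∃ x : ℕ, x ≤ B * N ∧
            N / Real.log N ^ U < |weighted lam (fun _ => x) Q r| := by
        intro n hn
        rw [hEx] at hn
        exact (mem_filter.1 hn).2
      choose! r hr using hch
      have hExA : Ex ⊆ A := by rw [hEx]; exact filter_subset _ _
      obtain ⟨v, hv1, hv2⟩ := choose_v A Ex φ (fun n => (r n : ℤ)) _ hLD (fun n hn => by
        have := (hr n hn).2.1
        push_cast
        exact this)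
      obtain ⟨e1, e2⟩ := hfam v hv1
      obtain ⟨k1, _⟩ := h1 N (by omega) {n // n ∈ A} v e1 e2 lam hlam'
      rw [hfc] at k1
      refine le_trans ?_ k1
      apply Nat.cast_le.2
      apply card_le_card_of_surjOn (fun i : {n : ι // n ∈ A} => i.1)
      intro n hn
      have hn' := mem_coe.1 hn
      refine ⟨⟨n, hExA hn'⟩, ?_, rfl⟩
      rw [mem_coe, mem_filter]
      obtain ⟨g1, g2, Q, g3, x, g4, g5⟩ := hr n hn'
      have hvn : v ⟨n, hExA hn'⟩ = (r n : ℤ) := hv2 ⟨n, hExA hn'⟩ hn'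
      refine ⟨mem_univ _, ?_, Q, g3.trans hlev1, x, g4.trans hBN, ?_⟩
      · rw [hvn]
        exact_mod_cast g1
      · rw [hvn, Int.toNat_natCast]
        rw [weighted_eq'] at g5
        exact g5
    · intro x hx
      obtain ⟨Ex, hEx⟩ : ∃ Ex : Finset ι, Ex = A.filter (fun n : ι => ∃ r : ℕ, 0 < r ∧
          |(r : ℝ) - φ n| ≤ Real.log N ^ D ∧ ∃ Q : ℕ, (Q : ℝ) ≤ level (max K1 K2) N ∧
            N / Real.log N ^ U < |weighted lam x Q r|) := ⟨_, rfl⟩
      refine ⟨Ex, ?_, ?_⟩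
      swap
      · intro n hn hnE r hr hr2 Q hQ
        by_contra hcon
        push Not at hcon
        apply hnE
        rw [hEx]
        exact mem_filter.2 ⟨hn, r, hr, hr2, Q, hQ, hcon⟩
      have hch : ∀ n ∈ Ex, ∃ r : ℕ, 0 < r ∧ |(r : ℝ) - φ n| ≤ Real.log N ^ D ∧
          ∃ Q : ℕ, (Q : ℝ) ≤ level (max K1 K2) N ∧
            N / Real.log N ^ U < |weighted lam x Q r| := by
        intro n hn
        rw [hEx] at hn
        exact (mem_filter.1 hn).2
      choose! r hr using hch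
      have hExA : Ex ⊆ A := by rw [hEx]; exact filter_subset _ _
      obtain ⟨v, hv1, hv2⟩ := choose_v A Ex φ (fun n => (r n : ℤ)) _ hLD (fun n hn => by
        have := (hr n hn).2.1
        push_cast
        exact this)
      obtain ⟨e1, e2⟩ := hfam v hv1
      obtain ⟨_, k1⟩ := h1 N (by omega) {n // n ∈ A} v e1 e2 lam hlam'
      have k2 := k1 x (fun q => (hx q).trans hBN)
      rw [hfc] at k2
      refine le_trans ?_ k2
      apply Nat.cast_le.2
      apply card_le_card_of_surjOn (fun i : {n : ι // n ∈ A} => i.1)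
      intro n hn
      have hn' := mem_coe.1 hn
      refine ⟨⟨n, hExA hn'⟩, ?_, rfl⟩
      rw [mem_coe, mem_filter]
      obtain ⟨g1, g2, Q, g3, g5⟩ := hr n hn'
      have hvn : v ⟨n, hExA hn'⟩ = (r n : ℤ) := hv2 ⟨n, hExA hn'⟩ hn'
      refine ⟨mem_univ _, ?_, Q, g3.trans hlev1, ?_⟩
      · rw [hvn]
        exact_mod_cast g1
      · rw [hvn, Int.toNat_natCast]
        rw [weighted_eq] at g5
        exact g5
  · intro r w hr hw x hx
    obtain ⟨v, hv1, hv2⟩ := choose_v A (A.filter (fun n => w n ≠ 0)) φ (fun n => (r n : ℤ)) _ hLD (fun n hn => by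
      rw [mem_filter] at hn
      have := (hr n hn.1 hn.2).2
      push_cast
      exact this)
    obtain ⟨e1, e2⟩ := hfam v hv1
    have k3 := h2 N (by omega) {n // n ∈ A} v e1 e2 (fun i => w i.1) (fun i => hw i.1 i.2)
      ⌊level (max K1 K2) N⌋₊ ((Nat.floor_le hlev0).trans hlev2) x (fun q => (hx q).trans hBN)
    rw [hfc] at k3
    rw [mul_comm (A.card : ℝ)]
    refine le_trans (le_of_eq ?_) k3
    apply sum_congr rfl
    intro q _
    unfold τ
    congr 2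
    rw [sum_filter, sum_filter, ← sum_coe_sort A]
    apply sum_congr rfl
    intro i _
    by_cases hwi : w i.1 = 0
    · rw [hwi, zero_mul, zero_mul, ite_self, ite_self]
    · have hvi : v i = (r i.1 : ℤ) := hv2 i (mem_filter.2 ⟨i.2, hwi⟩)
      have h4 := (hr i.1 i.2 hwi).1
      rw [hvi, Int.toNat_natCast]
      by_cases h5 : (r i.1).Coprime q
      · rw [if_pos h5, if_pos ⟨by exact_mod_cast h4, h5⟩]
        rfl
      · rw [if_neg h5, if_neg (fun h => h5 h.2)]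

end Pool.Agent.X275.GB.LD
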