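import Pool.Agent.X275.GB.PS
import Pool.Agent.TH445.OI.A15

set_option autoImplicit false

/-!
# Independence of the values of `Ω` for almost all shifts near the members of families of minimal energy

The passage from families of minimal energy to the independence is `Pool.Agent.TH445.OI` (starting files).
-/

namespace Pool.Agent.X275.GB.OM

open Finset
open ArithmeticFunction (cardFactors)
open Pool.Agent.TH935.GF (En)
open Pool.Agent.X275.GB.PS

/-- The mean over all `(r_1, ..., r_k)` in `[N]^k` of `g (Ω(r_1), ..., Ω(r_k))`. -/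
noncomputable def mean (N k : ℕ) (g : (Fin k → ℕ) → ℂ) : ℂ :=
  (∑ r ∈ Fintype.piFinset (fun _ : Fin k => Icc 1 N), g (fun i => cardFactors (r i))) / (N : ℂ) ^ k

/-- The rate `log log log N / √(log log N)`. -/
noncomputable def rate (N : ℕ) : ℝ := Real.log (Real.log (Real.log N)) / √(Real.log (Real.log N))

/-- The sum over `ℓ` of Q1 (tuples of positive integers `ℓ i + 1`), with shifts `h i`; Q1 is the case `h i = i`. -/
noncomputable def q1sum (N : ℕ) {K : ℕ} (h : Fin K → ℕ) : ℝ :=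
  ∑' ℓ : Fin K → ℕ, |(1 / (N : ℝ)) * (((Icc 1 N).filter (fun n => ∀ i, cardFactors (n + h i) = ℓ i + 1)).card : ℝ) -
    ∏ i : Fin K, ((1 / (N : ℝ)) * (((Icc 1 N).filter (fun n => cardFactors n = ℓ i + 1)).card : ℝ))|

/-- a condition on finite sets and functions which may be weakened by increasing the parameter -/
def Mono {ι : Type} (P : ℝ → ℕ → Finset ι → (ι → ℝ) → Prop) : Prop :=
  ∀ (L L' : ℝ) (N : ℕ) (A : Finset ι) (φ : ι → ℝ), 1 ≤ L → L ≤ L' → P L N A φ → P L' N A φ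

lemma mono_dg (b d : ℕ) : Mono (QDg b d) := by
  rintro L L' N A φ h1 h2 ⟨m, 𝒟, f, ⟨ds, deg, lead, size, sub, dense, bd⟩, hφ⟩
  have h0 : 0 < L := by linarith
  exact ⟨m, 𝒟, f, ⟨ds, deg, lead.trans h2, (div_le_div_of_nonneg_left (Nat.cast_nonneg _) h0 h2).trans size, sub,
    (div_le_div_of_nonneg_left (Nat.cast_nonneg _) h0 h2).trans dense, bd⟩, hφ⟩

lemma mono_bil (b₁ b₂ lam : ℕ) : Mono (QBil b₁ b₂ lam) := by
  rintro L L' N A φ h1 h2 ⟨m₁, m₂, 𝒟₁, 𝒟₂, θ, g, h, ⟨ds₁, ds₂, len₁, len₂, lead, size, sub, dense, bd⟩, hφ⟩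
  have h0 : 0 < L := by linarith
  exact ⟨m₁, m₂, 𝒟₁, 𝒟₂, θ, g, h, ⟨ds₁, ds₂, len₁, len₂, lead.trans h2,
    (div_le_div_of_nonneg_left (Nat.cast_nonneg _) h0 h2).trans size, sub,
    (div_le_div_of_nonneg_left (by positivity) h0 h2).trans dense, bd⟩, hφ⟩

lemma mono_rp (b : ℕ) (F : Finset ℝ) (a : ℝ → ℝ) (c : ℝ) : Mono (QRp b F a c) := by
  rintro L L' N A φ h1 h2 ⟨m, 𝒟, θ, b₀, ⟨ds, lead, size, sub, dense, bd⟩, hφ⟩
  have h0 : 0 < L := by linarith
  exact ⟨m, 𝒟, θ, b₀, ⟨ds, lead.trans h2, (div_le_div_of_nonneg_left (Nat.cast_nonneg _) h0 h2).trans size, sub,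
    (div_le_div_of_nonneg_left (Nat.cast_nonneg _) h0 h2).trans dense, bd⟩, hφ⟩

lemma energy_congr (p x : ℕ) (s s' : ℕ → ℤ) (h : ∀ m ∈ Icc 1 x, s m = s' m) :
    Pool.Agent.H373R2.T7.energy p x s = Pool.Agent.H373R2.T7.energy p x s' := by
  unfold Pool.Agent.H373R2.T7.energy
  congr 1
  apply filter_congr
  intro q hq
  rw [mem_product, Fintype.mem_piFinset, Fintype.mem_piFinset] at hq
  rw [sum_congr rfl (fun i _ => h _ (hq.1 i)), sum_congr rfl (fun i _ => h _ (hq.2 i))]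

/-- The values of `Ω` at `n + s_1, ..., n + s_k` are, up to the error `C rate N` in total variation, jointly independent,
independent of the label `f n` and of the values of `Ω` at `n + t_1, ..., n + t_j`, and distributed as the values of `Ω` on
`[N]`. -/
def Indep (N : ℕ) (C : ℝ) {j k : ℕ} (f : ℕ → ℕ) (t : Fin j → ℕ) (s : Fin k → ℕ) : Prop :=
  ∀ a : ℕ → (Fin j → ℕ) → (Fin k → ℕ) → ℂ, (∀ c u l, ‖a c u l‖ ≤ 1) →
    ‖(1 / (N : ℂ)) * ∑ n ∈ Icc 1 N, a (f n) (fun i => cardFactors (n + t i)) (fun i => cardFactors (n + s i)) -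
      (1 / (N : ℂ)) * ∑ n ∈ Icc 1 N, mean N k (a (f n) (fun i => cardFactors (n + t i)))‖ ≤ C * rate N

open Classical in
theorem main {ι : Type} {P : ℝ → ℕ → Finset ι → (ι → ℝ) → Prop} (HS : LSch P) (HM : Mono P) (j k B : ℕ) (Θ : ℝ)
    (hΘ : 1 ≤ Θ) :
    ∃ κ : ℝ, 0 < κ ∧ ∃ C : ℝ, 0 < C ∧ ∃ N₀ : ℕ, ∀ N : ℕ, N₀ ≤ N →
      ∀ f : ℕ → ℕ, (∀ n, (f n : ℝ) ≤ Real.log N ^ κ) → ∀ t : Fin j → ℕ, (∀ i, t i ≤ B * N) →
      ∀ (A : Fin k → Finset ι) (φ : Fin k → ι → ℝ), (∀ i, P Θ N (A i) (φ i)) →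
      ∀ s : Fin k → ι → ℕ, (∀ i, ∀ n ∈ A i, |(s i n : ℝ) - φ i n| ≤ Θ) →
      ∃ E ⊆ Fintype.piFinset A, (E.card : ℝ) ≤ (∏ i, ((A i).card : ℝ)) * Real.log N ^ (-κ) ∧
        ∀ n ∈ Fintype.piFinset A, n ∉ E → Indep N C f t (fun i => s i (n i)) := by
  obtain ⟨h₀, κ₀, hh₀, K, hK, HS⟩ := HS
  obtain ⟨L, hL⟩ : ∃ L, L = max Θ K := ⟨_, rfl⟩
  have hLΘ : Θ ≤ L := by rw [hL]; exact le_max_left _ _
  have hLK : K ≤ L := by rw [hL]; exact le_max_right _ _
  have hL1 : 1 ≤ L := by linarith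
  obtain ⟨B', hB'⟩ : ∃ B', B' = max B 2 := ⟨_, rfl⟩
  have hB1 : B ≤ B' := by rw [hB']; exact le_max_left _ _
  have hB2 : 2 ≤ B' := by rw [hB']; exact le_max_right _ _
  obtain ⟨κ, hκ, C, hC, N₀, hN₀3, h⟩ := Pool.Agent.TH445.OI.indF h₀ B' (by omega) (L ^ κ₀) (by positivity) j k
  obtain ⟨N₁, hN₁⟩ := exists_nat_ge L
  refine ⟨κ, hκ, C, hC, N₀ + N₁, fun N hN f hf t ht A φ hP s hs => ?_⟩
  have hLN : L ≤ N := hN₁.trans (by exact_mod_cast (by omega : N₁ ≤ N))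
  have hN0 : (0 : ℝ) < N := by exact_mod_cast (by omega : 0 < N)
  -- the enumerated families
  have hfam : ∀ i : Fin k, ∃ (s' : ℕ → ℕ) (ψ : ι → ℕ), Set.InjOn ψ (A i) ∧ (∀ n ∈ A i, ψ n ∈ Icc 1 (A i).card) ∧
      (∀ n ∈ A i, s' (ψ n) = s i n) ∧ Pool.Agent.TH445.OI.Good N B' h₀ (L ^ κ₀) (A i).card s' := by
    intro i
    obtain ⟨v, hv⟩ : ∃ v : {n : ι // n ∈ A i} → ℤ, v = fun n => (s i n.1 : ℤ) := ⟨_, rfl⟩
    obtain ⟨z, ψ, g1, g2, g3, g4, g5⟩ := Pool.Agent.X31.enum_family' (A i) v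
    obtain ⟨e1, e2⟩ := HS L N hLK hLN (A i) (φ i) (HM Θ L N _ _ hΘ hLΘ (hP i)) v (by
      intro n
      rw [hv]
      push_cast
      exact (hs i n.1 n.2).trans hLΘ)
    have hz : ∀ m ∈ Icc 1 (A i).card, ((z m).toNat : ℤ) = z m := by
      intro m hm
      obtain ⟨n, rfl⟩ := g4 m hm
      rw [g3, hv]
      simp
    refine ⟨fun m => (z m).toNat, ψ, g1, g2, ?_, ?_, ?_⟩
    · intro n hn
      have := g3 ⟨n, hn⟩
      simp only at this
      simp only [this, hv]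
      simp
    · intro m hm
      obtain ⟨n, hn⟩ := g4 m hm
      have h1 := e1 n
      rw [← g3 n, hn] at h1
      have h2 := hz m hm
      have h3 : ((z m).toNat : ℤ) ≤ 2 * N := by
        rw [h2]
        exact (le_abs_self _).trans h1
      have h4 : (z m).toNat ≤ 2 * N := by exact_mod_cast h3
      exact h4.trans (Nat.mul_le_mul_right _ hB2)
    · rw [energy_congr _ _ _ z hz, g5 h₀]
      rw [Fintype.card_coe] at e2
      exact e2
  choose s' ψ g1 g2 g3 g4 using hfam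
  obtain ⟨E, hE1, hE2, hE3⟩ := h N (by omega) f hf t (fun i => (ht i).trans (Nat.mul_le_mul_right _ hB1))
    (fun i => (A i).card) s' (fun i => ⟨h₀, le_rfl, g4 i⟩)
  refine ⟨(Fintype.piFinset A).filter (fun n => (fun i => ψ i (n i)) ∈ E), filter_subset _ _, ?_, ?_⟩
  · refine le_trans ?_ hE2
    apply Nat.cast_le.2
    apply card_le_card_of_injOn (fun n i => ψ i (n i))
    · intro n hn
      exact (mem_filter.1 (mem_coe.1 hn)).2
    · intro n hn n' hn' hnn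
      have h1 := (mem_filter.1 (mem_coe.1 hn)).1
      have h2 := (mem_filter.1 (mem_coe.1 hn')).1
      rw [Fintype.mem_piFinset] at h1 h2
      funext i
      exact g1 i (mem_coe.2 (h1 i)) (mem_coe.2 (h2 i)) (congrFun hnn i)
  · intro n hn hnE a ha
    have hn' := Fintype.mem_piFinset.1 hn
    have h3 := hE3 (fun i => ψ i (n i)) (Fintype.mem_piFinset.2 fun i => g2 i _ (hn' i))
      (fun hcon => hnE (mem_filter.2 ⟨hn, hcon⟩)) a ha
    simp only [g3 _ _ (hn' _)] at h3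
    rw [← mul_sub, norm_mul, norm_div, norm_one, Complex.norm_natCast, one_div, inv_mul_le_iff₀ hN0]
    refine h3.trans (le_of_eq ?_)
    have e : Pool.Agent.TH445.OI.rr N = rate N := rfl
    rw [e]
    ring

/-- the sum of Q1 for the shifts `0, s_1, ..., s_k` -/
theorem q1_of (N k : ℕ) (C : ℝ) (s : Fin k → ℕ) (hN : 1 ≤ N)
    (H : Indep N C (fun _ => 0) (fun _ : Fin 1 => 0) s) :
    q1sum N (Fin.cons 0 s : Fin (k + 1) → ℕ) ≤ C * rate N := by
  have hrate : 0 ≤ C * rate N := (norm_nonneg _).trans (H (fun _ _ _ => 0) (by intro c u l; simp))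
  unfold q1sum
  apply Pool.Agent.TH445.OI.tv_form N (k + 1) (fun n i => cardFactors (n + (Fin.cons 0 s : Fin (k + 1) → ℕ) i)) (C * rate N) hrate
  intro a ha
  have h1 := H (fun _ u l => a (Fin.cons (u 0) l : Fin (k + 1) → ℕ)) (fun _ _ _ => ha _)
  have e1 : ∀ n : ℕ, (fun i => cardFactors (n + (Fin.cons 0 s : Fin (k + 1) → ℕ) i)) =
      (Fin.cons (cardFactors (n + 0)) (fun i => cardFactors (n + s i)) : Fin (k + 1) → ℕ) := by
    intro n
    funext i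
    refine Fin.cases ?_ (fun i' => ?_) i
    · simp
    · simp
  have e2 : (1 / (N : ℂ)) * ∑ n ∈ Icc 1 N, mean N k (fun l => a (Fin.cons (cardFactors (n + 0)) l : Fin (k + 1) → ℕ)) =
      Pool.Agent.TH445.OI.av N (k + 1) a := by
    rw [Pool.Agent.TH445.OI.av_succ, one_div, div_eq_inv_mul]
    rfl
  simp only [e1]
  rw [← e2]
  exact h1

end Pool.Agent.X275.GB.OM
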