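import Pool.Agent.X31.S7
import Pool.Agent.X31.S2
import Pool.Agent.X31.M3
import Pool.Agent.X31.R3

set_option autoImplicit false

/-! # Schemes with an arbitrary parameter `L` (for instance a constant or a power of `N`) in place of powers of `log N` -/

namespace Pool.Agent.X275.GB.PS

open Finset Filter Topology Polynomial
open Pool.Agent.X31
open Pool.Agent.TH935.GF (En)
open Pool.Agent.TH915.PW (pw)

/-- `P L N A φ` is a condition under which the integers within `L` of the values `φ i`, `i ∈ A`, are `O(N)` and have the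
minimal additive energy of order `h₀`, up to the factor `L ^ κ`, if `L` is a small power of `N`. -/
def PSch {ι : Type} (P : ℝ → ℕ → Finset ι → (ι → ℝ) → Prop) : Prop :=
  ∃ h₀ κ : ℕ, 1 ≤ h₀ ∧ ∀ θ : ℝ, 0 < θ → θ ≤ 1 / 2 → ∃ N₀ : ℕ, ∀ N : ℕ, N₀ ≤ N → ∀ (A : Finset ι) (φ : ι → ℝ),
    P ((N : ℝ) ^ θ) N A φ → ∀ v : {n : ι // n ∈ A} → ℤ, (∀ i, |(v i : ℝ) - φ i.1| ≤ (N : ℝ) ^ θ) →
      (∀ i, |v i| ≤ (2 : ℤ) * N) ∧
      (En h₀ v : ℝ) * N ≤ ((N : ℝ) ^ θ) ^ κ * (Fintype.card {n : ι // n ∈ A} : ℝ) ^ (2 * h₀)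

/-- `P L N A φ` is a condition under which the integers within `L` of the values `φ i`, `i ∈ A`, are `O(N)` and have the
minimal additive energy of order `h₀`, up to the factor `L ^ κ`, for all large `L ≤ N`. -/
def LSch {ι : Type} (P : ℝ → ℕ → Finset ι → (ι → ℝ) → Prop) : Prop :=
  ∃ h₀ κ : ℕ, 1 ≤ h₀ ∧ ∃ K : ℝ, 1 ≤ K ∧ ∀ (L : ℝ) (N : ℕ), K ≤ L → L ≤ N → ∀ (A : Finset ι) (φ : ι → ℝ),
    P L N A φ → ∀ v : {n : ι // n ∈ A} → ℤ, (∀ i, |(v i : ℝ) - φ i.1| ≤ L) →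
      (∀ i, |v i| ≤ (2 : ℤ) * N) ∧
      (En h₀ v : ℝ) * N ≤ L ^ κ * (Fintype.card {n : ι // n ∈ A} : ℝ) ^ (2 * h₀)

lemma pow_large (θ : ℝ) (hθ : 0 < θ) (K : ℝ) : ∀ᶠ N : ℕ in atTop, K ≤ (N : ℝ) ^ θ :=
  ((tendsto_rpow_atTop hθ).comp tendsto_natCast_atTop_atTop).eventually_ge_atTop K

lemma pow_le_self {N : ℕ} (hN : 1 ≤ N) {θ : ℝ} (hθ : θ ≤ 1) : ((N : ℝ) ^ θ) ^ 1 ≤ N := by
  rw [pow_one]
  have hNr : (1 : ℝ) ≤ N := by exact_mod_cast hN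
  calc (N : ℝ) ^ θ ≤ (N : ℝ) ^ (1 : ℝ) := Real.rpow_le_rpow_of_exponent_le hNr hθ
    _ = N := Real.rpow_one _

lemma pow_sq_le_self {N : ℕ} (hN : 1 ≤ N) {θ : ℝ} (hθ : θ ≤ 1 / 2) : ((N : ℝ) ^ θ) ^ 2 ≤ N := by
  have hNr : (1 : ℝ) ≤ N := by exact_mod_cast hN
  rw [← Real.rpow_natCast, ← Real.rpow_mul (by linarith)]
  calc (N : ℝ) ^ (θ * (2 : ℕ)) ≤ (N : ℝ) ^ (1 : ℝ) := by
        apply Real.rpow_le_rpow_of_exponent_le hNr
        push_cast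
        linarith
    _ = N := Real.rpow_one _

theorem LSch.psch {ι : Type} {P : ℝ → ℕ → Finset ι → (ι → ℝ) → Prop} (H : LSch P) : PSch P := by
  obtain ⟨h₀, κ, hh₀, K, hK, H⟩ := H
  refine ⟨h₀, κ, hh₀, fun θ hθ hθ1 => ?_⟩
  obtain ⟨N₀, hN₀⟩ := eventually_atTop.1 ((pow_large θ hθ K).and (eventually_ge_atTop 1))
  refine ⟨N₀, fun N hN A φ hP v hv => ?_⟩
  obtain ⟨g1, g3⟩ := hN₀ N hN
  have g2 := pow_le_self g3 (show θ ≤ 1 by linarith)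
  rw [pow_one] at g2
  exact H _ N g1 g2 A φ hP v hv

/-! ## Polynomials at integers with missing digits -/

/-- the data: the polynomial and the dense subset -/
def FDg (b d : ℕ) (L : ℝ) (N m : ℕ) (𝒟 : ℕ → Finset ℕ) (f : ℝ[X]) (A : Finset ℕ) : Prop :=
  CT.DS b 𝒟 ∧ f.natDegree ≤ d ∧ |f.coeff d| ≤ L ∧ (N : ℝ) / L ≤ |f.coeff d| * (b : ℝ) ^ (d * m) ∧
  A ⊆ CT.Dg b 𝒟 m ∧ ((CT.Dg b 𝒟 m).card : ℝ) / L ≤ A.card ∧ ∀ n ∈ A, |f.eval (n : ℝ)| ≤ N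

def QDg (b d : ℕ) (L : ℝ) (N : ℕ) (A : Finset ℕ) (φ : ℕ → ℝ) : Prop :=
  ∃ (m : ℕ) (𝒟 : ℕ → Finset ℕ) (f : ℝ[X]), FDg b d L N m 𝒟 f A ∧ ∀ n, φ n = f.eval (n : ℝ)

theorem LSch_dg {b : ℕ} (hb : 2 ≤ b) {d : ℕ} (hd : 2 ≤ d) : LSch (QDg b d) := by
  obtain ⟨h₀, hh₀, H⟩ := CT.energy_R hb hd
  obtain ⟨K, hK, H1⟩ := H h₀ le_rfl 1 zero_le_one
  refine ⟨h₀, 3 * 1 + 2 * h₀ * 1 + 1, hh₀, K * (2 * h₀) + 1, by
    have : 0 ≤ K * (2 * h₀) := by positivity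
    linarith, fun L N g1 g2 A φ hP v hv => ?_⟩
  obtain ⟨m, 𝒟, f, ⟨ds, deg, lead, size, sub, dense, bd⟩, hφ⟩ := hP
  have hL1 : 1 ≤ L := by
    have : 0 ≤ K * (2 * h₀) := by positivity
    linarith
  have hL0 : 0 < L := by linarith
  have hNr : (1 : ℝ) ≤ N := by linarith
  have g3 : 1 ≤ N := by exact_mod_cast hNr
  rw [div_le_iff₀ hL0] at size dense
  rw [CT.Dg_eq hb ds] at sub dense
  have hθ0 : f.coeff d ≠ 0 := by
    intro h0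
    rw [h0, abs_zero, zero_mul, zero_mul] at size
    linarith
  have hLp : 0 < 1 / L ^ 1 := by positivity
  have key := en_of_Cl (CT.KK b 𝒟 m) A φ h₀ 1 N hh₀ (|f.coeff d| * (b : ℝ) ^ (d * m)) K L
    hL1 g1 hK (by rw [pow_one]; exact g2) g3 (by
      intro R hR
      have h1 := H1 𝒟 ds m (Polynomial.C (1 / L ^ 1) * f) ((Polynomial.natDegree_C_mul_le _ _).trans deg) (by
        rw [Polynomial.coeff_C_mul]
        exact mul_ne_zero hLp.ne' hθ0) (by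
        rw [Polynomial.coeff_C_mul, abs_mul, abs_of_pos hLp, one_div_mul_eq_div, div_le_one (by positivity), pow_one]
        exact lead) R hR
      simp only [Polynomial.eval_mul, Polynomial.eval_C, Polynomial.coeff_C_mul] at h1
      rw [abs_mul, abs_of_pos hLp, mul_assoc (1 / L ^ 1)] at h1
      simp only [hφ]
      exact h1) (by rw [pow_one]; exact size) sub (by rw [pow_one]; exact dense) (by
      intro n hn
      rw [hφ]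
      exact bd n hn) v (by
      intro i
      rw [pow_one]
      exact hv i)
  exact ⟨key.1, key.2 h₀ le_rfl⟩

/-! ## Bilinear functions at pairs of integers with missing digits -/

/-- the data of a bilinear family -/
def FBil (b₁ b₂ lam : ℕ) (L : ℝ) (N m₁ m₂ : ℕ) (𝒟₁ 𝒟₂ : ℕ → Finset ℕ) (θ : ℝ) (g h : ℕ → ℝ) (A : Finset (ℕ × ℕ)) : Prop :=
  CT.DS b₁ 𝒟₁ ∧ CT.DS b₂ 𝒟₂ ∧ m₁ ≤ lam * m₂ ∧ m₂ ≤ lam * m₁ ∧ |θ| ≤ L ∧
  (N : ℝ) / L ≤ |θ| * ((b₁ : ℝ) ^ m₁ * (b₂ : ℝ) ^ m₂) ∧ A ⊆ CT.Dg b₁ 𝒟₁ m₁ ×ˢ CT.Dg b₂ 𝒟₂ m₂ ∧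
  ((CT.Dg b₁ 𝒟₁ m₁).card * (CT.Dg b₂ 𝒟₂ m₂).card : ℝ) / L ≤ A.card ∧
  ∀ p ∈ A, |θ * ((p.1 : ℝ) * p.2) + g p.1 + h p.2| ≤ N

def QBil (b₁ b₂ lam : ℕ) (L : ℝ) (N : ℕ) (A : Finset (ℕ × ℕ)) (φ : ℕ × ℕ → ℝ) : Prop :=
  ∃ (m₁ m₂ : ℕ) (𝒟₁ 𝒟₂ : ℕ → Finset ℕ) (θ : ℝ) (g h : ℕ → ℝ), FBil b₁ b₂ lam L N m₁ m₂ 𝒟₁ 𝒟₂ θ g h A ∧
    ∀ p, φ p = θ * ((p.1 : ℝ) * p.2) + g p.1 + h p.2

theorem LSch_bil {b₁ b₂ : ℕ} (hb₁ : 2 ≤ b₁) (hb₂ : 2 ≤ b₂) (lam : ℕ) (hlam : 1 ≤ lam) : LSch (QBil b₁ b₂ lam) := by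
  obtain ⟨h₀, hh₀, H⟩ := CT.bil_R hb₁ hb₂ lam hlam
  obtain ⟨K, hK, H1⟩ := H h₀ le_rfl 1 zero_le_one
  refine ⟨h₀, 3 * 1 + 2 * h₀ * 1 + 1, hh₀, K * (2 * h₀) + 1, by
    have : 0 ≤ K * (2 * h₀) := by positivity
    linarith, fun L N g1 g2 A φ hP v hv => ?_⟩
  obtain ⟨m₁, m₂, 𝒟₁, 𝒟₂, θ, g, h, ⟨ds₁, ds₂, len₁, len₂, lead, size, sub, dense, bd⟩, hφ⟩ := hP
  have hL1 : 1 ≤ L := by
    have : 0 ≤ K * (2 * h₀) := by positivity
    linarith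
  have hL0 : 0 < L := by linarith
  have hNr : (1 : ℝ) ≤ N := by linarith
  have g3 : 1 ≤ N := by exact_mod_cast hNr
  rw [div_le_iff₀ hL0] at size dense
  rw [CT.Dg_eq hb₁ ds₁, CT.Dg_eq hb₂ ds₂] at sub dense
  have hθ0 : θ ≠ 0 := by
    intro h0
    rw [h0, abs_zero, zero_mul, zero_mul] at size
    linarith
  have hLp : 0 < 1 / L ^ 1 := by positivity
  have key := en_of_Cl (CT.KP b₁ b₂ 𝒟₁ 𝒟₂ m₁ m₂) A φ h₀ 1 N hh₀ (|θ| * ((b₁ : ℝ) ^ m₁ * (b₂ : ℝ) ^ m₂)) K L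
    hL1 g1 hK (by rw [pow_one]; exact g2) g3 (by
      intro R hR
      have h1 := H1 𝒟₁ 𝒟₂ ds₁ ds₂ m₁ m₂ len₁ len₂ (1 / L ^ 1 * θ)
        (fun x => 1 / L ^ 1 * g x) (fun y => 1 / L ^ 1 * h y) (mul_ne_zero hLp.ne' hθ0) (by
          rw [abs_mul, abs_of_pos hLp, one_div_mul_eq_div, div_le_one (by positivity), pow_one]
          exact lead) R hR
      have e0 : (fun p : {p : ℕ × ℕ // p ∈ CT.KP b₁ b₂ 𝒟₁ 𝒟₂ m₁ m₂} => 1 / L ^ 1 * φ p.1) =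
          (fun p : {p : ℕ × ℕ // p ∈ CT.KP b₁ b₂ 𝒟₁ 𝒟₂ m₁ m₂} => 1 / L ^ 1 * θ * ((p.1.1 : ℝ) * p.1.2) +
            1 / L ^ 1 * g p.1.1 + 1 / L ^ 1 * h p.1.2) := by
        funext p
        rw [hφ]
        ring
      rw [e0]
      rw [abs_mul, abs_of_pos hLp, mul_assoc] at h1
      exact h1) (by rw [pow_one]; exact size) sub (by
      rw [card_product, pow_one]
      push_cast
      exact dense) (by
      intro p hp
      rw [hφ]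
      exact bd p hp) v (by
      intro i
      rw [pow_one]
      exact hv i)
  exact ⟨key.1, key.2 h₀ le_rfl⟩

/-! ## Generalised polynomials with a leading exponent which is not an integer, at integers with missing digits -/

/-- the data of a real power family -/
def FRp (b : ℕ) (c : ℝ) (L : ℝ) (N m : ℕ) (𝒟 : ℕ → Finset ℕ) (θ b₀ : ℝ) (f : ℕ → ℝ) (A : Finset ℕ) : Prop :=
  CT.DS b 𝒟 ∧ |θ| ≤ L ∧ (N : ℝ) / L ≤ |θ| * ((b : ℝ) ^ m) ^ c ∧ A ⊆ CT.Dg b 𝒟 m ∧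
  ((CT.Dg b 𝒟 m).card : ℝ) / L ≤ A.card ∧ ∀ n ∈ A, |b₀ + θ * f n| ≤ N

def QRp (b : ℕ) (F : Finset ℝ) (a : ℝ → ℝ) (c : ℝ) (L : ℝ) (N : ℕ) (A : Finset ℕ) (φ : ℕ → ℝ) : Prop :=
  ∃ (m : ℕ) (𝒟 : ℕ → Finset ℕ) (θ b₀ : ℝ), FRp b c L N m 𝒟 θ b₀ (gp F a) A ∧ ∀ n, φ n = b₀ + θ * gp F a n

theorem LSch_rp {b : ℕ} (hb : 2 ≤ b) (F : Finset ℝ) (a : ℝ → ℝ) (c : ℝ) (hcF : c ∈ F) (hmax : ∀ x ∈ F, x ≤ c)
    (hac : a c ≠ 0) (hc : 0 < c) (hcn : ∀ m : ℕ, c ≠ m) : LSch (QRp b F a c) := by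
  obtain ⟨k, κ₁, κ₂, t₀, hSd⟩ := CT.Sd_gp F a c hcF hmax hac hc hcn
  obtain ⟨h₀, hh₀, H⟩ := CT.rp_R hb hSd
  obtain ⟨K, hK, H1⟩ := H h₀ le_rfl 1 zero_le_one
  refine ⟨h₀, 3 * 1 + 2 * h₀ * 1 + 1, hh₀, K * (2 * h₀) + 1, by
    have : 0 ≤ K * (2 * h₀) := by positivity
    linarith, fun L N g1 g2 A φ hP v hv => ?_⟩
  obtain ⟨m, 𝒟, θ, b₀, ⟨ds, lead, size, sub, dense, bd⟩, hφ⟩ := hP
  have hL1 : 1 ≤ L := by
    have : 0 ≤ K * (2 * h₀) := by positivity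
    linarith
  have hL0 : 0 < L := by linarith
  have hNr : (1 : ℝ) ≤ N := by linarith
  have g3 : 1 ≤ N := by exact_mod_cast hNr
  rw [div_le_iff₀ hL0] at size dense
  rw [CT.Dg_eq hb ds] at sub dense
  have hθ0 : θ ≠ 0 := by
    intro h0
    rw [h0, abs_zero, zero_mul, zero_mul] at size
    linarith
  have hLp : 0 < 1 / L ^ 1 := by positivity
  have key := en_of_Cl (CT.KK b 𝒟 m) A φ h₀ 1 N hh₀ (|θ| * ((b : ℝ) ^ m) ^ c) K L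
    hL1 g1 hK (by rw [pow_one]; exact g2) g3 (by
      intro R hR
      have h1 := H1 𝒟 ds m (1 / L ^ 1 * θ) (mul_ne_zero hLp.ne' hθ0) (by
          rw [abs_mul, abs_of_pos hLp, one_div_mul_eq_div, div_le_one (by positivity), pow_one]
          exact lead) R hR
      have e0 : (fun n : {n : ℕ // n ∈ CT.KK b 𝒟 m} => 1 / L ^ 1 * φ n.1) =
          (fun n : {n : ℕ // n ∈ CT.KK b 𝒟 m} => 1 / L ^ 1 * b₀ +
            1 / L ^ 1 * θ * ∑ x ∈ F, pw (a x) x 0 ((n : ℕ) : ℝ)) := by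
        funext n
        rw [hφ, genpoly_zero]
        unfold gp
        ring
      rw [e0, Cl_shift]
      rw [abs_mul, abs_of_pos hLp, mul_assoc (1 / L ^ 1)] at h1
      exact h1) (by rw [pow_one]; exact size) sub (by rw [pow_one]; exact dense) (by
      intro n hn
      rw [hφ]
      exact bd n hn) v (by
      intro i
      rw [pow_one]
      exact hv i)
  exact ⟨key.1, key.2 h₀ le_rfl⟩

/-! ## Generalised polynomials at dense sets of integers -/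

/-- the data: `b₀ + θ f(n)`, `n ∈ A ⊆ {1, ..., Y}` -/
def FGp (c : ℝ) (B : ℕ) (L : ℝ) (N Y : ℕ) (θ b₀ : ℝ) (f : ℕ → ℝ) (A : Finset ℕ) : Prop :=
  (Y : ℝ) ≤ (N : ℝ) ^ B ∧ |θ| ≤ L ∧ (N : ℝ) / L ≤ |θ| * (Y : ℝ) ^ c ∧ A ⊆ Icc 1 Y ∧
  (Y : ℝ) / L ≤ A.card ∧ ∀ n ∈ A, |b₀ + θ * f n| ≤ N

def QGp (F : Finset ℝ) (a : ℝ → ℝ) (c : ℝ) (B : ℕ) (L : ℝ) (N : ℕ) (A : Finset ℕ) (φ : ℕ → ℝ) : Prop :=
  ∃ (Y : ℕ) (θ b₀ : ℝ), FGp c B L N Y θ b₀ (gp F a) A ∧ ∀ n, φ n = b₀ + θ * gp F a n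

lemma log_pow_le_pow (θ : ℝ) (hθ : 0 < θ) (B E : ℕ) :
    ∀ᶠ N : ℕ in atTop, (1 + B * Real.log N) ^ E ≤ (N : ℝ) ^ θ := by
  have e1 := (isLittleO_log_rpow_atTop (show (0 : ℝ) < θ / (2 * (E + 1)) by positivity)).def
    (show (0 : ℝ) < 1 by norm_num)
  have e3 := tendsto_natCast_atTop_atTop (R := ℝ) |>.eventually e1
  have e4 := pow_large (θ / (2 * (E + 1))) (by positivity) (1 + B)
  filter_upwards [e3, e4, eventually_ge_atTop 3] with N h1 h2 h3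
  have hN3 : (3 : ℝ) ≤ N := by exact_mod_cast h3
  have hN0 : (0 : ℝ) < N := by linarith
  have hlog : 1 ≤ Real.log N := by
    rw [Real.le_log_iff_exp_le hN0]
    linarith [Real.exp_one_lt_d9]
  obtain ⟨t, ht⟩ : ∃ t, t = (N : ℝ) ^ (θ / (2 * (E + 1))) := ⟨_, rfl⟩
  rw [Real.norm_eq_abs, Real.norm_eq_abs, abs_of_nonneg (by linarith), abs_of_nonneg (by positivity), one_mul, ← ht] at h1
  rw [← ht] at h2
  have ht1 : 1 ≤ t := by linarith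
  have h4 : 1 + B * Real.log N ≤ t * t := by
    calc 1 + B * Real.log N ≤ (1 + B) * Real.log N := by nlinarith
      _ ≤ t * t := mul_le_mul h2 h1 (by linarith) (by linarith)
  have h5 : (t * t) ^ (E + 1) = (N : ℝ) ^ θ := by
    rw [ht, ← Real.rpow_add hN0, ← Real.rpow_natCast, ← Real.rpow_mul hN0.le]
    congr 1
    push_cast
    field_simp
    ring
  rw [← h5]
  have h6 : 1 ≤ t * t := by nlinarith
  calc (1 + B * Real.log N) ^ E ≤ (t * t) ^ E := pow_le_pow_left₀ (by positivity) h4 E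
    _ ≤ (t * t) ^ (E + 1) := pow_le_pow_right₀ h6 (by omega)

theorem PSch_gp (F : Finset ℝ) (a : ℝ → ℝ) (c : ℝ) (hcF : c ∈ F) (hmax : ∀ x ∈ F, x ≤ c)
    (hac : a c ≠ 0) (hc : 0 < c) (B : ℕ) : PSch (QGp F a c B) := by
  obtain ⟨h₀, hh₀, C, hC, E, hE⟩ := gp_EB' F a c hcF hmax hac hc
  refine ⟨h₀, 3 * 2 + 2 * h₀ * 2 + 1, hh₀, fun η hη hη1 => ?_⟩
  obtain ⟨N₀, hN₀⟩ := eventually_atTop.1 ((pow_large η hη (C * (2 * h₀) + 1)).and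
    ((log_pow_le_pow η hη B E).and (eventually_ge_atTop 1)))
  refine ⟨N₀, fun N hN A φ hP v hv => ?_⟩
  obtain ⟨g1, g4, g3⟩ := hN₀ N hN
  have g2 := pow_sq_le_self g3 hη1
  obtain ⟨Y, θ, b₀, ⟨len, lead, size, sub, dense, bd⟩, hφ⟩ := hP
  obtain ⟨L, hL⟩ : ∃ L, L = (N : ℝ) ^ η := ⟨_, rfl⟩
  rw [← hL] at g1 g2 g4 lead size dense hv ⊢
  have hL1 : 1 ≤ L := by
    have : 0 ≤ C * (2 * h₀) := by positivity
    linarith
  have hL0 : 0 < L := by linarith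
  have hLL : L ≤ L ^ 2 := by nlinarith
  have hNr : (1 : ℝ) ≤ N := by exact_mod_cast g3
  rw [div_le_iff₀ hL0] at size dense
  have hθ0 : 0 < |θ| := by
    by_contra h0
    have h0' : |θ| = 0 := le_antisymm (not_lt.1 h0) (abs_nonneg _)
    rw [h0', zero_mul, zero_mul] at size
    linarith
  have hY1 : 1 ≤ Y := by
    by_contra h0
    have h0' : Y = 0 := by omega
    rw [h0', Nat.cast_zero, Real.zero_rpow hc.ne', mul_zero, zero_mul] at size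
    linarith
  have hYr : (1 : ℝ) ≤ Y := by exact_mod_cast hY1
  have hYc : 0 < (Y : ℝ) ^ c := by positivity
  have hlogY0 : 0 ≤ Real.log Y := Real.log_nonneg hYr
  have hlogY : (1 + Real.log Y) ^ E ≤ L := by
    refine le_trans ?_ g4
    apply pow_le_pow_left₀ (by linarith)
    have h1 : Real.log Y ≤ B * Real.log N := by
      rw [← Real.log_pow]
      exact Real.log_le_log (by linarith) len
    linarith
  have hcard : (((Icc 1 Y : Finset ℕ).card : ℕ) : ℝ) = Y := by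
    rw [Nat.card_Icc, Nat.add_sub_cancel]
  have key := en_of_Cl (Icc 1 Y) A φ h₀ 2 N hh₀ (|θ| * (Y : ℝ) ^ c / L) C L
    hL1 g1 hC g2 g3 (by
      intro R hR
      obtain ⟨S, hS⟩ : ∃ S : ℝ, S = R * L ^ 2 / |θ| := ⟨_, rfl⟩
      have hS1 : 1 ≤ S := by
        rw [hS, le_div_iff₀ hθ0, one_mul]
        calc |θ| ≤ L := lead
          _ ≤ L ^ 2 := hLL
          _ = 1 * L ^ 2 := (one_mul _).symm
          _ ≤ R * L ^ 2 := mul_le_mul_of_nonneg_right hR (by positivity)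
      have h1 := hE Y hY1 S hS1
      have e0 : Cl h₀ (fun n : {n : ℕ // n ∈ (Icc 1 Y : Finset ℕ)} => 1 / L ^ 2 * φ n.1) R =
          Cl h₀ (fun n : {n : ℕ // n ∈ (Icc 1 Y : Finset ℕ)} => gp F a n) S := by
        have e1 : (fun n : {n : ℕ // n ∈ (Icc 1 Y : Finset ℕ)} => 1 / L ^ 2 * φ n.1) =
            (fun n : {n : ℕ // n ∈ (Icc 1 Y : Finset ℕ)} => 1 / L ^ 2 * b₀ + (1 / L ^ 2 * θ) * gp F a n) := by
          funext n
          rw [hφ]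
          ring
        rw [e1, Cl_shift]
        have h2 : 1 / L ^ 2 * |θ| * S = R := by
          rw [hS]
          field_simp
        rcases lt_or_gt_of_ne (abs_pos.1 hθ0) with h | h
        · rw [abs_of_neg h] at h2
          have e2 : (fun n : {n : ℕ // n ∈ (Icc 1 Y : Finset ℕ)} => (1 / L ^ 2 * θ) * gp F a n) =
              (fun n : {n : ℕ // n ∈ (Icc 1 Y : Finset ℕ)} => - ((1 / L ^ 2 * -θ) * gp F a n)) := by
            funext n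
            ring
          rw [e2, Cl_neg, ← h2]
          exact Cl_scale h₀ _ S _ (by
            have : 0 < -θ := by linarith
            positivity)
        · rw [abs_of_pos h] at h2
          rw [← h2]
          exact Cl_scale h₀ _ S _ (by positivity)
      rw [e0, hcard]
      calc (Cl h₀ (fun n : {n : ℕ // n ∈ (Icc 1 Y : Finset ℕ)} => gp F a n) S : ℝ) *
            (1 / L ^ 2 * (|θ| * (Y : ℝ) ^ c / L)) ≤
            (C * (S * (Y : ℝ) ^ (2 * h₀) * (1 + Real.log Y) ^ E / (Y : ℝ) ^ c)) *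
            (1 / L ^ 2 * (|θ| * (Y : ℝ) ^ c / L)) := mul_le_mul_of_nonneg_right h1 (by positivity)
        _ = C * R * (Y : ℝ) ^ (2 * h₀) * ((1 + Real.log Y) ^ E / L) := by
            rw [hS]
            field_simp
        _ ≤ C * R * (Y : ℝ) ^ (2 * h₀) * 1 := by
            apply mul_le_mul_of_nonneg_left _ (by positivity)
            rw [div_le_one hL0]
            exact hlogY
        _ = _ := mul_one _) (by
      calc (N : ℝ) ≤ |θ| * (Y : ℝ) ^ c * L := size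
        _ = |θ| * (Y : ℝ) ^ c / L * L ^ 2 := by
            field_simp) sub (by
      rw [hcard]
      refine dense.trans ?_
      exact mul_le_mul_of_nonneg_left hLL (Nat.cast_nonneg _)) (by
      intro n hn
      rw [hφ]
      exact bd n hn) v (fun i => (hv i).trans hLL)
  exact ⟨key.1, key.2 h₀ le_rfl⟩

end Pool.Agent.X275.GB.PS
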