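import Pool.Agent.X31.S2

set_option autoImplicit false

/-! # Schinzel's formula for pairs of linear polynomials, near the members of thin families -/

namespace Pool.Agent.X275.GB.SL

open Finset Filter Topology
open scoped Polynomial
open Pool.Agent.TH935.GF (En)
open Pool.Agent.TH935.TF
open Pool.Agent.X31 (Sch)

/-- almost all members of families with small energies of order `h` have `Q` -/
def FamO (h : ℕ) (Q : ℕ → ℤ → Prop) : Prop := ∀ B C U : ℕ, ∃ N₀ : ℕ, ∀ N : ℕ, N₀ ≤ N →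
  ∀ (ι : Type) [Fintype ι] (v : ι → ℤ), (∀ i, |v i| ≤ B * N) →
    (En h v : ℝ) * N ≤ Real.log N ^ C * (Fintype.card ι : ℝ) ^ (2 * h) →
    ∀ S : Finset ι, (∀ i ∈ S, ¬ Q N (v i)) → (S.card : ℝ) ≤ Fintype.card ι / Real.log N ^ U

/-- the form of `Pool.Agent.X31.Sch.single` -/
theorem single {ι : Type} {P : ℕ → ℕ → Finset ι → (ι → ℝ) → Prop} (HS : Sch P) (D U : ℕ)
    (Q : ℕ → ℤ → Prop) (HQ : ∀ h : ℕ, 1 ≤ h → FamO h Q) :
    ∃ N₀ : ℕ, ∀ N : ℕ, N₀ ≤ N → ∀ (A : Finset ι) (φ : ι → ℝ), P D N A φ →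
      ∃ E : Finset ι, (E.card : ℝ) ≤ A.card / Real.log N ^ U ∧ ∀ n ∈ A, n ∉ E →
        ∀ s : ℤ, |(s : ℝ) - φ n| ≤ Real.log N ^ D → Q N s := by
  classical
  obtain ⟨h, hh, h1⟩ := HS.en
  obtain ⟨C, N₁, h1⟩ := h1 D
  obtain ⟨N₂, h2⟩ := HQ h hh 2 C U
  refine ⟨N₁ + N₂ + 3, fun N hN A φ hdat => ?_⟩
  have hL1 : 1 ≤ Real.log N := Pool.Agent.TH935.TF.one_le_log (by omega)
  have hLD : 1 ≤ Real.log N ^ D := one_le_pow₀ hL1
  obtain ⟨E, hE⟩ : ∃ E : Finset ι, E = A.filter (fun n : ι => ∃ s : ℤ, |(s : ℝ) - φ n| ≤ Real.log N ^ D ∧ ¬ Q N s) :=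
    ⟨_, rfl⟩
  refine ⟨E, ?_, ?_⟩
  swap
  · intro n hn hnE s hs
    by_contra hcon
    apply hnE
    rw [hE]
    exact mem_filter.2 ⟨hn, s, hs, hcon⟩
  have hch : ∀ n ∈ E, ∃ s : ℤ, |(s : ℝ) - φ n| ≤ Real.log N ^ D ∧ ¬ Q N s := by
    intro n hn
    rw [hE] at hn
    exact (mem_filter.1 hn).2
  choose! s hs using hch
  have hEA : E ⊆ A := by rw [hE]; exact filter_subset _ _
  obtain ⟨v, hv⟩ : ∃ v : {n : ι // n ∈ A} → ℤ, ∀ i : {n : ι // n ∈ A},
      |(v i : ℝ) - φ i.1| ≤ Real.log N ^ D ∧ (i.1 ∈ E → v i = s i.1) := by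
    apply Classical.axiomOfChoice (r := fun (i : {n : ι // n ∈ A}) (z : ℤ) =>
      |(z : ℝ) - φ i.1| ≤ Real.log N ^ D ∧ (i.1 ∈ E → z = s i.1))
    intro i
    by_cases hi : i.1 ∈ E
    · exact ⟨s i.1, (hs i.1 hi).1, fun _ => rfl⟩
    · refine ⟨⌊φ i.1⌋, ?_, fun h => absurd h hi⟩
      rw [abs_le]
      have h1 := Int.floor_le (φ i.1)
      have h2 := Int.lt_floor_add_one (φ i.1)
      constructor <;> linarith
  obtain ⟨e1, e2⟩ := h1 N (by omega) A φ hdat v (fun i => (hv i).1)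
  have key := h2 N (by omega) _ v (by
    intro i
    have := e1 i
    push_cast
    exact this) (e2 h le_rfl) (univ.filter (fun i : {n : ι // n ∈ A} => i.1 ∈ E)) (by
    intro i hi
    rw [mem_filter] at hi
    rw [(hv i).2 hi.2]
    exact (hs i.1 hi.2).2)
  rw [Fintype.card_coe] at key
  refine le_trans ?_ key
  apply Nat.cast_le.2
  apply card_le_card_of_surjOn (fun i : {n : ι // n ∈ A} => i.1)
  intro n hn
  have hn' := mem_coe.1 hn
  exact ⟨⟨n, hEA hn'⟩, by rw [mem_coe, mem_filter]; exact ⟨mem_univ _, hn'⟩, rfl⟩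

/-- pairs: `n` and `α n + s` -/
theorem famO_sys (h A Bw D : ℕ) (ε : ℝ) (hε : 0 < ε) :
    FamO h (fun N s => HW (k := 1) (m := 2) consA consB ε A Bw D N (fun _ => s)) := by
  classical
  intro B C U
  obtain ⟨N₀, h0⟩ := Pool.Agent.X31.famT_sys (sys_lam 1 le_rfl) le_rfl h A Bw D ε hε B C U
  refine ⟨N₀, fun N hN ι _ v hv hE S hS => ?_⟩
  have h1 := h0 N hN (fun _ => ι) (fun _ => v) (fun _ j => hv j) (fun _ => hE)
    (S.map ⟨fun i => (fun _ : Fin 1 => i), fun a b h => congrFun h 0⟩) (by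
      intro q hq
      obtain ⟨i, hi, rfl⟩ := Finset.mem_map.1 hq
      exact hS i hi)
  simpa using h1

/-! ## The statement of the problem, for `g = 1` -/

/-- `N` is admissible for `F` and `G`: `N - G` is irreducible and no prime divides `F(n) (N - G(n))` for every integer `n`. -/
def Admissible (F G : ℤ[X]) (N : ℕ) : Prop :=
  Irreducible (Polynomial.C (N : ℤ) - G) ∧
    ∀ p : ℕ, p.Prime → ∃ n : ℤ, ¬ (p : ℤ) ∣ F.eval n * ((N : ℤ) - G.eval n)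

/-- `X(N)`: the number of the positive integers `n` with `N - G(n) > 0`. -/
noncomputable def XN (G : ℤ[X]) (N : ℕ) : ℕ := Set.ncard {n : ℕ | 0 < n ∧ 0 < (N : ℤ) - G.eval (n : ℤ)}

/-- `Q_1(N)`: the number of the positive integers `n` for which `F(n)` and `N - G(n)` are (positive) primes. -/
noncomputable def Q₁ (F G : ℤ[X]) (N : ℕ) : ℕ :=
  Set.ncard {n : ℕ | 0 < n ∧ (∃ p : ℕ, p.Prime ∧ F.eval (n : ℤ) = p) ∧ ∃ q : ℕ, q.Prime ∧ (N : ℤ) - G.eval (n : ℤ) = q}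

/-- `ω_N(p)`: the number of the residues `n` modulo `p` with `F(n) (N - G(n)) ≡ 0`. -/
noncomputable def omega (F G : ℤ[X]) (N p : ℕ) : ℕ :=
  ((range p).filter (fun r : ℕ => (p : ℤ) ∣ F.eval (r : ℤ) * ((N : ℤ) - G.eval (r : ℤ)))).card

/-- The partial products of the singular series `𝔖(N)`. -/
noncomputable def SS (F G : ℤ[X]) (N z : ℕ) : ℝ :=
  ∏ p ∈ (Icc 1 z).filter Nat.Prime, (1 - (omega F G N p : ℝ) / p) / (1 - 1 / (p : ℝ)) ^ 2

/-- Schinzel's formula for `F`, `G` of degree `1`, up to a relative error of at most `ε`: the singular series converges to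
a number `S > 0` and `Q_1(N)` is `X(N) S / log ^ 2 X(N)` up to a relative error of at most `ε`. -/
def Formula (ε : ℝ) (F G : ℤ[X]) (N : ℕ) : Prop :=
  ∃ S : ℝ, 0 < S ∧ Tendsto (SS F G N) atTop (𝓝 S) ∧
    |(Q₁ F G N : ℝ) - (XN G N : ℝ) / Real.log (XN G N) ^ 2 * S| ≤ ε * ((XN G N : ℝ) / Real.log (XN G N) ^ 2 * S)

/-- Schinzel's formula holds for `F = x + b`, `G = c x + d`, for all `1 ≤ c ≤ log ^ D H`, `|b|, |d| ≤ log ^ D H` for which
`N` is admissible. -/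
def Holds (ε : ℝ) (D H N : ℕ) : Prop :=
  ∀ b c d : ℤ, 1 ≤ c → (c : ℝ) ≤ Real.log H ^ D → |(b : ℝ)| ≤ Real.log H ^ D → |(d : ℝ)| ≤ Real.log H ^ D →
    Admissible (Polynomial.X + Polynomial.C b) (Polynomial.C c * Polynomial.X + Polynomial.C d) N →
    Formula ε (Polynomial.X + Polynomial.C b) (Polynomial.C c * Polynomial.X + Polynomial.C d) N

/-! ## The proof -/

lemma eval_F (b n : ℤ) : (Polynomial.X + Polynomial.C b : ℤ[X]).eval n = n + b := by simp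

lemma eval_G (c d n : ℤ) : (Polynomial.C c * Polynomial.X + Polynomial.C d : ℤ[X]).eval n = c * n + d := by simp

lemma XN_eq (c d : ℤ) (N : ℕ) (hc : 1 ≤ c) (hN : d + 1 ≤ N) :
    (XN (Polynomial.C c * Polynomial.X + Polynomial.C d) N : ℤ) = ((N : ℤ) - d - 1) / c := by
  have h0 : 0 ≤ ((N : ℤ) - d - 1) / c := Int.ediv_nonneg (by omega) (by omega)
  obtain ⟨m, hm⟩ : ∃ m : ℕ, ((N : ℤ) - d - 1) / c = m := ⟨_, (Int.toNat_of_nonneg h0).symm⟩
  have hset : {n : ℕ | 0 < n ∧ 0 < (N : ℤ) - (Polynomial.C c * Polynomial.X + Polynomial.C d : ℤ[X]).eval (n : ℤ)} =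
      ((Icc 1 m : Finset ℕ) : Set ℕ) := by
    ext n
    rw [Set.mem_ofPred_eq, eval_G, coe_Icc, Set.mem_Icc]
    have h1 : (n : ℤ) ≤ m ↔ (n : ℤ) * c ≤ (N : ℤ) - d - 1 := by
      rw [← hm, Int.le_ediv_iff_mul_le (by omega)]
    have h2 : n ≤ m ↔ (n : ℤ) ≤ m := by exact_mod_cast Iff.rfl
    rw [h2, h1]
    constructor
    · rintro ⟨a, b⟩
      exact ⟨a, by linarith [mul_comm c (n : ℤ)]⟩
    · rintro ⟨a, b⟩
      exact ⟨a, by linarith [mul_comm c (n : ℤ)]⟩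
  unfold XN
  rw [hset, Set.ncard_coe_finset, Nat.card_Icc, hm]
  simp

lemma Q_eq (b c d : ℤ) (N : ℕ) (s : ℤ) (hs : s = (N : ℤ) - d + c * b) (hc : 1 ≤ c) (y : ℕ) (hy : (y : ℤ) = (s - 1) / c) :
    Q₁ (Polynomial.X + Polynomial.C b) (Polynomial.C c * Polynomial.X + Polynomial.C d) N =
      ((Ioc 0 y).filter (fun p : ℕ => (p.Prime ∧ (-c * (p : ℤ) + s).natAbs.Prime) ∧ b < p)).card := by
  have key : ∀ p : ℕ, p ≤ y ↔ 0 < -c * (p : ℤ) + s := by
    intro p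
    have h1 : (p : ℤ) ≤ y ↔ (p : ℤ) * c ≤ s - 1 := by
      rw [hy, Int.le_ediv_iff_mul_le (by omega)]
    have h2 : p ≤ y ↔ (p : ℤ) ≤ y := by exact_mod_cast Iff.rfl
    rw [h2, h1]
    constructor <;> intro h <;> linarith [mul_comm c (p : ℤ)]
  unfold Q₁
  rw [← Set.ncard_coe_finset]
  symm
  apply Set.ncard_congr (fun (p : ℕ) _ => ((p : ℤ) - b).toNat)
  · intro p hp
    rw [mem_coe, mem_filter, mem_Ioc] at hp
    obtain ⟨⟨h1, h2⟩, ⟨h3, h4⟩, h5⟩ := hp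
    have e : (((p : ℤ) - b).toNat : ℤ) = p - b := Int.toNat_of_nonneg (by omega)
    have hpos := (key p).1 h2
    rw [Set.mem_ofPred_eq, eval_F, eval_G, e]
    refine ⟨by omega, ⟨p, h3, by ring⟩, (-c * (p : ℤ) + s).natAbs, h4, ?_⟩
    rw [Int.natAbs_of_nonneg hpos.le, hs]
    ring
  · intro p q hp hq h
    rw [mem_coe, mem_filter] at hp hq
    have h1 := hp.2.2
    have h2 := hq.2.2
    omega
  · intro n hn
    rw [Set.mem_ofPred_eq, eval_F, eval_G] at hn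
    obtain ⟨h1, ⟨p, h2, h3⟩, q, h4, h5⟩ := hn
    have e : -c * (p : ℤ) + s = q := by
      rw [← h3, ← h5, hs]
      ring
    refine ⟨p, ?_, ?_⟩
    · rw [mem_coe, mem_filter, mem_Ioc]
      refine ⟨⟨h2.pos, (key p).2 (by rw [e]; exact_mod_cast h4.pos)⟩, ⟨h2, by rw [e, Int.natAbs_natCast]; exact h4⟩, by omega⟩
    · show ((p : ℤ) - b).toNat = n
      omega

lemma omega_eq (b c d : ℤ) (N : ℕ) (s : ℤ) (hs : s = (N : ℤ) - d + c * b) (p : ℕ) (hp : p.Prime) :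
    om (consA (fun _ : Fin 1 => -c)) (consB (fun _ : Fin 1 => s)) p =
      omega (Polynomial.X + Polynomial.C b) (Polynomial.C c * Polynomial.X + Polynomial.C d) N p := by
  unfold om omega
  have hp0 : (0 : ℤ) < p := by exact_mod_cast hp.pos
  have hpp : Prime (p : ℤ) := Nat.prime_iff_prime_int.1 hp
  symm
  apply card_bij (fun (r : ℕ) _ => (((r : ℤ) + b) % p).toNat)
  · intro r hr
    rw [mem_filter, mem_range, eval_F, eval_G] at hr
    have e : ((((r : ℤ) + b) % p).toNat : ℤ) = ((r : ℤ) + b) % p := Int.toNat_of_nonneg (Int.emod_nonneg _ hp0.ne')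
    have h1 : ((r : ℤ) + b) % p < p := Int.emod_lt_of_pos _ hp0
    have hmod : ((((r : ℤ) + b) % p).toNat : ℤ) ≡ (r : ℤ) + b [ZMOD p] := by
      rw [e]
      exact Int.mod_modEq _ _
    rw [mem_filter, mem_range]
    refine ⟨by omega, ?_⟩
    rcases hpp.dvd_or_dvd hr.2 with h | h
    · refine ⟨0, ?_⟩
      rw [consA_zero, consB_zero, one_mul, add_zero]
      exact (Int.ModEq.dvd_iff hmod).2 h
    · refine ⟨Fin.succ 0, ?_⟩
      rw [consA_succ, consB_succ]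
      have h2 : -c * ((((r : ℤ) + b) % p).toNat : ℤ) + s ≡ -c * ((r : ℤ) + b) + s [ZMOD p] :=
        (hmod.mul_left _).add_right _
      have h3 : -c * ((r : ℤ) + b) + s = (N : ℤ) - (c * r + d) := by rw [hs]; ring
      rw [h3] at h2
      exact (Int.ModEq.dvd_iff h2).2 h
  · intro r hr r' hr' h
    rw [mem_filter, mem_range] at hr hr'
    have e : ((((r : ℤ) + b) % p).toNat : ℤ) = ((r : ℤ) + b) % p := Int.toNat_of_nonneg (Int.emod_nonneg _ hp0.ne')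
    have e' : ((((r' : ℤ) + b) % p).toNat : ℤ) = ((r' : ℤ) + b) % p := Int.toNat_of_nonneg (Int.emod_nonneg _ hp0.ne')
    have h1 : ((r : ℤ) + b) % p = ((r' : ℤ) + b) % p := by rw [← e, ← e', h]
    have h2 : (r : ℤ) ≡ r' [ZMOD p] := Int.ModEq.add_right_cancel' b h1
    have h3 : (r : ℤ) % p = (r' : ℤ) % p := h2
    rw [Int.emod_eq_of_lt (by positivity) (by exact_mod_cast hr.1),
      Int.emod_eq_of_lt (by positivity) (by exact_mod_cast hr'.1)] at h3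
    exact_mod_cast h3
  · intro t ht
    rw [mem_filter, mem_range] at ht
    obtain ⟨ht1, i, hi⟩ := ht
    have e : ((((t : ℤ) - b) % p).toNat : ℤ) = ((t : ℤ) - b) % p := Int.toNat_of_nonneg (Int.emod_nonneg _ hp0.ne')
    have h1 : ((t : ℤ) - b) % p < p := Int.emod_lt_of_pos _ hp0
    have hmod : ((((t : ℤ) - b) % p).toNat : ℤ) ≡ (t : ℤ) - b [ZMOD p] := by
      rw [e]
      exact Int.mod_modEq _ _
    refine ⟨(((t : ℤ) - b) % p).toNat, ?_, ?_⟩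
    · rw [mem_filter, mem_range, eval_F, eval_G]
      refine ⟨by omega, ?_⟩
      revert hi
      refine Fin.cases ?_ (fun j => ?_) i
      · intro hi
        rw [consA_zero, consB_zero, one_mul, add_zero] at hi
        apply dvd_mul_of_dvd_left
        have h2 : ((((t : ℤ) - b) % p).toNat : ℤ) + b ≡ (t : ℤ) - b + b [ZMOD p] := hmod.add_right _
        rw [sub_add_cancel] at h2
        exact (Int.ModEq.dvd_iff h2).2 hi
      · intro hi
        rw [consA_succ, consB_succ] at hi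
        apply dvd_mul_of_dvd_right
        have h2 : (N : ℤ) - (c * ((((t : ℤ) - b) % p).toNat : ℤ) + d) ≡ (N : ℤ) - (c * ((t : ℤ) - b) + d) [ZMOD p] :=
          Int.ModEq.sub_left _ ((hmod.mul_left _).add_right _)
        have h3 : (N : ℤ) - (c * ((t : ℤ) - b) + d) = -c * (t : ℤ) + s := by rw [hs]; ring
        rw [h3] at h2
        exact (Int.ModEq.dvd_iff h2).2 hi
    · have h2 : (((((t : ℤ) - b) % p).toNat : ℤ) + b) % p = (t : ℤ) := by
        have h3 : ((((t : ℤ) - b) % p).toNat : ℤ) + b ≡ (t : ℤ) - b + b [ZMOD p] := hmod.add_right _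
        rw [sub_add_cancel] at h3
        have h4 : (((((t : ℤ) - b) % p).toNat : ℤ) + b) % p = (t : ℤ) % p := h3
        rw [h4]
        exact Int.emod_eq_of_lt (by positivity) (by exact_mod_cast ht1)
      rw [h2]
      simp

lemma SS_eq (b c d : ℤ) (N : ℕ) (s : ℤ) (hs : s = (N : ℤ) - d + c * b) :
    (fun z => Gz (om (consA (fun _ : Fin 1 => -c)) (consB (fun _ : Fin 1 => s))) 2 z) =
      SS (Polynomial.X + Polynomial.C b) (Polynomial.C c * Polynomial.X + Polynomial.C d) N := by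
  funext z
  unfold Gz SS Fq Pool.Agent.H373R2.T7.pz
  apply prod_congr rfl
  intro p hp
  rw [omega_eq b c d N s hs p (mem_filter.1 hp).2]

lemma adm_eq (b c d : ℤ) (N : ℕ) (s : ℤ) (hs : s = (N : ℤ) - d + c * b)
    (h : Admissible (Polynomial.X + Polynomial.C b) (Polynomial.C c * Polynomial.X + Polynomial.C d) N) :
    Adm (consA (fun _ : Fin 1 => -c)) (consB (fun _ : Fin 1 => s)) := by
  intro p hp
  obtain ⟨n, hn⟩ := h.2 p hp
  rw [eval_F, eval_G] at hn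
  refine ⟨n + b, fun i => ?_⟩
  refine Fin.cases ?_ (fun j => ?_) i
  · rw [consA_zero, consB_zero, one_mul, add_zero]
    exact fun h1 => hn (dvd_mul_of_dvd_left h1 _)
  · rw [consA_succ, consB_succ]
    intro h1
    apply hn
    apply dvd_mul_of_dvd_right
    have e : (N : ℤ) - (c * n + d) = -c * (n + b) + s := by rw [hs]; ring
    rw [e]
    exact h1

lemma dist_eq (c s : ℤ) (hs : s ≠ 0) : Dist (consA (fun _ : Fin 1 => -c)) (consB (fun _ : Fin 1 => s)) := by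
  intro i j hij
  revert hij
  refine Fin.cases ?_ (fun i => ?_) i <;> refine Fin.cases ?_ (fun j => ?_) j
  · intro h
    exact absurd rfl h
  · intro _
    simp only [consA_zero, consA_succ, consB_zero, consB_succ]
    constructor
    · rintro ⟨_, h⟩
      exact hs h.symm
    · rintro ⟨_, h⟩
      exact hs (by omega)
  · intro _
    simp only [consA_zero, consA_succ, consB_zero, consB_succ]
    constructor
    · rintro ⟨_, h⟩
      exact hs h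
    · rintro ⟨_, h⟩
      exact hs (by omega)
  · intro h
    exact absurd (by rw [Subsingleton.elim i j]) h

/-- the final inequality -/
lemma fin_ineq {ε ε₀ S x y L l q cn b : ℝ} (hε0 : 0 < ε₀) (hε1 : ε₀ ≤ 1 / 2) (hεε : 6 * ε₀ ≤ ε) (hS : 0 < S) (hx : 0 < x)
    (hL : 0 < L) (hl : 0 < l) (hy : |y - x| ≤ ε₀ * x) (hlL : |l ^ 2 - L ^ 2| ≤ ε₀ * L ^ 2)
    (hq : |q - cn| ≤ b) (hb : b ≤ ε₀ * (x / l ^ 2 * S))
    (hcn : |cn - S * y / L ^ 2| ≤ ε₀ * (S * y / L ^ 2)) :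
    |q - x / l ^ 2 * S| ≤ ε * (x / l ^ 2 * S) := by
  obtain ⟨t, ht⟩ : ∃ t, t = x / l ^ 2 * S := ⟨_, rfl⟩
  obtain ⟨r, hr⟩ : ∃ r, r = S * x / L ^ 2 := ⟨_, rfl⟩
  obtain ⟨w, hw⟩ : ∃ w, w = S * y / L ^ 2 := ⟨_, rfl⟩
  rw [← ht] at hb ⊢
  rw [← hw] at hcn
  have ht0 : 0 < t := by rw [ht]; positivity
  have hr0 : 0 < r := by rw [hr]; positivity
  have hrt : r = t * (l ^ 2 / L ^ 2) := by
    rw [hr, ht]
    field_simp
  have h1 : |r - t| ≤ ε₀ * t := by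
    have e : r - t = t * ((l ^ 2 - L ^ 2) / L ^ 2) := by
      rw [hrt]
      field_simp
    rw [e, abs_mul, abs_of_pos ht0, abs_div, abs_of_pos (by positivity : (0 : ℝ) < L ^ 2), mul_comm ε₀ t]
    apply mul_le_mul_of_nonneg_left _ ht0.le
    rw [div_le_iff₀ (by positivity)]
    exact hlL
  have h2 : |w - r| ≤ ε₀ * r := by
    have e : w - r = S / L ^ 2 * (y - x) := by
      rw [hw, hr]
      ring
    have e2 : ε₀ * r = S / L ^ 2 * (ε₀ * x) := by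
      rw [hr]
      ring
    rw [e, e2, abs_mul, abs_of_pos (by positivity : (0 : ℝ) < S / L ^ 2)]
    exact mul_le_mul_of_nonneg_left hy (by positivity)
  rw [abs_le] at h1 h2 hq hcn ⊢
  have h3 : r ≤ (1 + ε₀) * t := by linarith [h1.2]
  have h3' : r ≤ 3 / 2 * t := by nlinarith
  have h4 : w ≤ 3 / 2 * r := by nlinarith [h2.2]
  have h5 : ε₀ * r ≤ 3 / 2 * (ε₀ * t) := by nlinarith
  have h6 : ε₀ * w ≤ 9 / 4 * (ε₀ * t) := by nlinarith
  have h7 : 6 * (ε₀ * t) ≤ ε * t := by nlinarith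
  have h8 : 0 < ε₀ * t := by positivity
  constructor
  · linarith [h1.1, h2.1, hq.1, hcn.1]
  · linarith [h1.2, h2.2, hq.2, hcn.2]

/-- logarithms are comparable -/
lemma log_ineq {ε₀ H x L : ℝ} {k : ℕ} (hε0 : 0 < ε₀) (hε1 : ε₀ ≤ 1 / 2) (hH : 0 < H) (hL : L = Real.log H)
    (hLbig : (6 * (k : ℝ) / ε₀ + 6 / ε₀ + 1) ^ 2 ≤ L) (hx1 : H / L ^ k ≤ x) (hx2 : x ≤ 4 * H) :
    |Real.log x ^ 2 - L ^ 2| ≤ ε₀ * L ^ 2 ∧ Real.log x ≤ 2 * L ∧ 0 < Real.log x := by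
  have hk : (0 : ℝ) ≤ k := Nat.cast_nonneg k
  have hA : 1 ≤ 6 * (k : ℝ) / ε₀ + 6 / ε₀ + 1 := by
    have : 0 ≤ 6 * (k : ℝ) / ε₀ := by positivity
    have : 0 ≤ 6 / ε₀ := by positivity
    linarith
  obtain ⟨A, hAA⟩ : ∃ A, A = 6 * (k : ℝ) / ε₀ + 6 / ε₀ + 1 := ⟨_, rfl⟩
  rw [← hAA] at hA hLbig
  have hL1 : 1 ≤ L := le_trans (by nlinarith) hLbig
  have hL0 : 0 < L := by linarith
  obtain ⟨R, hR⟩ : ∃ R, R = Real.sqrt L := ⟨_, rfl⟩
  have hRR : R * R = L := by rw [hR]; exact Real.mul_self_sqrt hL0.le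
  have hRA : A ≤ R := by rw [hR]; exact Real.le_sqrt_of_sq_le hLbig
  have hR1 : 1 ≤ R := hA.trans hRA
  have hlogL : Real.log L ≤ 2 * R := by
    have h1 : Real.log L = 2 * Real.log R := by
      rw [← hRR, Real.log_mul (by linarith) (by linarith)]
      ring
    rw [h1]
    linarith [Real.log_le_sub_one_of_pos (by linarith : 0 < R)]
  have hx0 : 0 < x := lt_of_lt_of_le (by positivity) hx1
  have h1 : L - k * Real.log L ≤ Real.log x := by
    have h2 := Real.log_le_log (by positivity : 0 < H / L ^ k) hx1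
    rw [Real.log_div hH.ne' (by positivity), Real.log_pow, ← hL] at h2
    exact h2
  have h4 : Real.log x ≤ L + 2 := by
    have h2 := Real.log_le_log hx0 hx2
    rw [Real.log_mul (by norm_num) hH.ne', ← hL] at h2
    have h3 : Real.log 4 ≤ 2 := by
      have e : Real.log 4 = 2 * Real.log 2 := by
        rw [show (4 : ℝ) = 2 * 2 by norm_num, Real.log_mul (by norm_num) (by norm_num)]
        ring
      rw [e]
      linarith [Real.log_two_lt_d9]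
    linarith
  have h5 : (k : ℝ) * Real.log L ≤ ε₀ / 3 * L := by
    have h6 : (k : ℝ) * Real.log L ≤ k * (2 * R) := mul_le_mul_of_nonneg_left hlogL hk
    have h7 : 6 * (k : ℝ) / ε₀ ≤ R := by
      have : 0 ≤ 6 / ε₀ := by positivity
      linarith
    rw [div_le_iff₀ hε0] at h7
    have h8 : (k : ℝ) * (2 * R) ≤ ε₀ / 3 * L := by
      rw [← hRR]
      nlinarith
    linarith
  have h9 : 2 ≤ ε₀ / 3 * L := by
    have h7 : 6 / ε₀ ≤ R := by
      have : 0 ≤ 6 * (k : ℝ) / ε₀ := by positivity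
      linarith
    rw [div_le_iff₀ hε0] at h7
    rw [← hRR]
    nlinarith
  obtain ⟨l, hl⟩ : ∃ l, l = Real.log x := ⟨_, rfl⟩
  rw [← hl] at h1 h4 ⊢
  have h10 : |l - L| ≤ ε₀ / 3 * L := by
    rw [abs_le]
    constructor <;> linarith
  have h11 : l ≤ 2 * L := by
    rw [abs_le] at h10
    nlinarith [h10.2]
  have h12 : 0 < l := by
    rw [abs_le] at h10
    nlinarith [h10.1]
  refine ⟨?_, h11, h12⟩
  have e : l ^ 2 - L ^ 2 = (l - L) * (l + L) := by ring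
  rw [e, abs_mul, abs_of_pos (by linarith : 0 < l + L)]
  calc |l - L| * (l + L) ≤ ε₀ / 3 * L * (3 * L) := by
        apply mul_le_mul h10 (by linarith) (by linarith) (by positivity)
    _ = ε₀ * L ^ 2 := by ring

lemma cn_card (c s : ℤ) (y : ℕ) :
    cn (consA (fun _ : Fin 1 => -c)) (consB (fun _ : Fin 1 => s)) 0 y =
      ((Ioc 0 y).filter (fun p : ℕ => p.Prime ∧ (-c * (p : ℤ) + s).natAbs.Prime)).card := by
  unfold cn
  congr 1
  apply filter_congr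
  intro n _
  constructor
  · intro h
    have h0 := h 0
    have h1 := h (Fin.succ 0)
    rw [consA_zero, consB_zero, one_mul, add_zero, Int.natAbs_natCast] at h0
    rw [consA_succ, consB_succ] at h1
    exact ⟨h0, h1⟩
  · rintro ⟨h0, h1⟩ i
    refine Fin.cases ?_ (fun j => ?_) i
    · rw [consA_zero, consB_zero, one_mul, add_zero, Int.natAbs_natCast]
      exact h0
    · rw [consA_succ, consB_succ]
      exact h1

/-- few primes `p ≤ b` -/
lemma cn_sub (b c s : ℤ) (y : ℕ) :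
    ((Ioc 0 y).filter (fun p : ℕ => (p.Prime ∧ (-c * (p : ℤ) + s).natAbs.Prime) ∧ b < p)).card ≤
      ((Ioc 0 y).filter (fun p : ℕ => p.Prime ∧ (-c * (p : ℤ) + s).natAbs.Prime)).card ∧
    ((Ioc 0 y).filter (fun p : ℕ => p.Prime ∧ (-c * (p : ℤ) + s).natAbs.Prime)).card ≤
      ((Ioc 0 y).filter (fun p : ℕ => (p.Prime ∧ (-c * (p : ℤ) + s).natAbs.Prime) ∧ b < p)).card + b.natAbs := by
  classical
  constructor
  · apply card_le_card
    intro p hp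
    rw [mem_filter] at hp ⊢
    exact ⟨hp.1, hp.2.1⟩
  · have h1 : (Ioc 0 y).filter (fun p : ℕ => p.Prime ∧ (-c * (p : ℤ) + s).natAbs.Prime) ⊆
        (Ioc 0 y).filter (fun p : ℕ => (p.Prime ∧ (-c * (p : ℤ) + s).natAbs.Prime) ∧ b < p) ∪ Ioc 0 b.natAbs := by
      intro p hp
      rw [mem_filter, mem_Ioc] at hp
      rw [mem_union, mem_filter, mem_Ioc, mem_Ioc]
      by_cases h : b < p
      · exact Or.inl ⟨hp.1, hp.2, h⟩
      · right
        omega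
    refine (card_le_card h1).trans ((card_union_le _ _).trans ?_)
    rw [Nat.card_Ioc]
    omega

/-- sizes: everything in terms of real numbers -/
lemma size1 {H N P L : ℝ} (hP1 : 1 ≤ P) (hL8 : 8 ≤ L) (hMP : P ^ 3 * L ^ 5 ≤ H) (hNP : H ≤ N * P) :
    8 * P ≤ N ∧ 8 * P ^ 2 ≤ N ∧ 8 * P ≤ H ∧ P * L ^ 5 ≤ H / P ^ 2 ∧ 8 ≤ L ^ 5 := by
  have hP0 : 0 < P := by linarith
  have hL1 : 1 ≤ L := by linarith
  have hL5 : 8 ≤ L ^ 5 := by
    calc (8 : ℝ) ≤ L := hL8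
      _ = L ^ 1 := (pow_one _).symm
      _ ≤ L ^ 5 := pow_le_pow_right₀ hL1 (by norm_num)
  have hPP : P ≤ P ^ 2 := by nlinarith
  have hPPP : P ^ 2 ≤ P ^ 3 := pow_le_pow_right₀ hP1 (by norm_num)
  have hN3 : P ^ 2 * L ^ 5 ≤ N := by
    have h1 : P ^ 2 * L ^ 5 * P ≤ N * P := by
      have e : P ^ 2 * L ^ 5 * P = P ^ 3 * L ^ 5 := by ring
      rw [e]
      exact hMP.trans hNP
    exact le_of_mul_le_mul_right h1 hP0
  have h2 : P ^ 2 * 8 ≤ P ^ 2 * L ^ 5 := mul_le_mul_of_nonneg_left hL5 (by positivity)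
  have h3 : P ^ 3 * 8 ≤ P ^ 3 * L ^ 5 := mul_le_mul_of_nonneg_left hL5 (by positivity)
  refine ⟨by linarith, by linarith, by linarith, ?_, hL5⟩
  rw [le_div_iff₀ (by positivity)]
  have e : P * L ^ 5 * P ^ 2 = P ^ 3 * L ^ 5 := by ring
  rw [e]
  exact hMP

/-- the lower bound for `x` -/
lemma size2 {H N P L x c d : ℝ} (hP1 : 1 ≤ P) (hL8 : 8 ≤ L) (hMP : P ^ 3 * L ^ 5 ≤ H) (hNP : H ≤ N * P)
    (hx0 : 0 ≤ x) (hc : c ≤ P) (hd : d ≤ P) (hx : N - d - 1 < (x + 1) * c) : H / (P ^ 2 * L) + P ≤ x := by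
  obtain ⟨-, -, -, h5, h6⟩ := size1 hP1 hL8 hMP hNP
  have hP0 : 0 < P := by linarith
  have hL0 : 0 < L := by linarith
  have h3 : N - P - 1 ≤ (x + 1) * P := by
    have : (x + 1) * c ≤ (x + 1) * P := mul_le_mul_of_nonneg_left hc (by linarith)
    linarith
  have h4 : N / P ≤ x + 3 := by
    rw [div_le_iff₀ hP0]
    nlinarith
  have h7 : H / P ^ 2 ≤ N / P := by
    rw [div_le_div_iff₀ (by positivity) hP0]
    calc H * P ≤ N * P * P := mul_le_mul_of_nonneg_right hNP hP0.le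
      _ = N * P ^ 2 := by ring
  have h8 : H / (P ^ 2 * L) ≤ H / P ^ 2 / 8 := by
    rw [← div_div]
    apply div_le_div_of_nonneg_left _ (by norm_num) hL8
    have : 0 ≤ P * L ^ 5 := by positivity
    linarith
  have h9 : P * 8 ≤ P * L ^ 5 := mul_le_mul_of_nonneg_left h6 hP0.le
  linarith

/-- the error terms -/
lemma size3 {ε₀ δ S H N P L x l : ℝ} (hε0 : 0 < ε₀) (hδ : 0 < δ) (hδS : δ ≤ S) (hP1 : 1 ≤ P) (hL8 : 8 ≤ L)
    (hLε : 1 ≤ ε₀ * L) (hLδ : 4 ≤ ε₀ * δ * L)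
    (hMP : P ^ 3 * L ^ 5 ≤ H) (hNP : H ≤ N * P) (hxx : H / (P ^ 2 * L) ≤ x) (hx0 : 0 < x) (hl0 : 0 < l) (hl : l ≤ 2 * L) :
    P ≤ ε₀ * x ∧ P ≤ ε₀ * (x / l ^ 2 * S) := by
  obtain ⟨-, -, -, h5, h6⟩ := size1 hP1 hL8 hMP hNP
  have hP0 : 0 < P := by linarith
  have hL0 : 0 < L := by linarith
  have hL1 : 1 ≤ L := by linarith
  have h1 : P * L ^ 4 ≤ x := by
    refine le_trans ?_ hxx
    rw [← div_div, le_div_iff₀ hL0]
    calc P * L ^ 4 * L = P * L ^ 5 := by ring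
      _ ≤ _ := h5
  constructor
  · have h3 : ε₀ * (P * L ^ 4) ≤ ε₀ * x := mul_le_mul_of_nonneg_left h1 hε0.le
    have h4 : P ≤ ε₀ * (P * L ^ 4) := by
      calc P = P * 1 := by ring
        _ ≤ P * (ε₀ * L) := mul_le_mul_of_nonneg_left hLε hP0.le
        _ ≤ P * (ε₀ * L ^ 4) := by
            apply mul_le_mul_of_nonneg_left _ hP0.le
            apply mul_le_mul_of_nonneg_left _ hε0.le
            calc L = L ^ 1 := (pow_one _).symm
              _ ≤ L ^ 4 := pow_le_pow_right₀ hL1 (by norm_num)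
        _ = _ := by ring
    linarith
  · have h2 : l ^ 2 ≤ 4 * L ^ 2 := by
      have := mul_le_mul hl hl hl0.le (by linarith)
      nlinarith
    have h3 : P * L ^ 4 / (4 * L ^ 2) ≤ x / l ^ 2 := by
      apply div_le_div₀ hx0.le h1 (by positivity) h2
    have h4 : P * L ^ 4 / (4 * L ^ 2) = P * L ^ 2 / 4 := by
      field_simp
    rw [h4] at h3
    have h5 : P * L ^ 2 / 4 * δ ≤ x / l ^ 2 * S :=
      mul_le_mul h3 hδS hδ.le (by positivity)
    have h6 : P ≤ ε₀ * (P * L ^ 2 / 4 * δ) := by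
      have e : ε₀ * (P * L ^ 2 / 4 * δ) = P * (ε₀ * δ * L) * L / 4 := by ring
      rw [e]
      have h7 : P * 4 ≤ P * (ε₀ * δ * L) := mul_le_mul_of_nonneg_left hLδ hP0.le
      nlinarith
    exact h6.trans (mul_le_mul_of_nonneg_left h5 hε0.le)

/-- from the formula in the windows to Schinzel's formula, for one set of data -/
lemma core_aux {ε ε₀ δ L P : ℝ} (D H N : ℕ) (b c d s : ℤ) (hs : s = (N : ℤ) - d + c * b)
    (hlow : ∀ (ν : ℕ → ℕ) (bad : Finset ℕ), Loc ν 2 bad → ∀ z : ℕ, δ ≤ Gz ν 2 z)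
    (hδ : 0 < δ) (hε0 : 0 < ε₀) (hε1 : ε₀ ≤ 1 / 2) (hεε : 6 * ε₀ ≤ ε)
    (hL : L = Real.log (H : ℝ)) (hP : P = L ^ D)
    (hLbig : (6 * ((2 * D + 1 : ℕ) : ℝ) / ε₀ + 6 / ε₀ + 1) ^ 2 ≤ L)
    (hL8 : 8 ≤ L) (hLε : 1 ≤ ε₀ * L) (hLδ : 4 ≤ ε₀ * δ * L) (hH0 : (0 : ℝ) < H)
    (hP1 : 1 ≤ P) (hMP : P ^ 3 * L ^ 5 ≤ H) (hNP : (H : ℝ) ≤ N * P) (hN2 : (N : ℝ) ≤ 3 * H)
    (hc1 : 1 ≤ c) (hc2 : (c : ℝ) ≤ P) (hb : -P ≤ b ∧ (b : ℝ) ≤ P) (hd : -P ≤ d ∧ (d : ℝ) ≤ P)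
    (hHW : HW (k := 1) (m := 2) consA consB ε₀ (2 * D + 1) 4 D H (fun _ => s))
    (hadm : Admissible (Polynomial.X + Polynomial.C b) (Polynomial.C c * Polynomial.X + Polynomial.C d) N) :
    Formula ε (Polynomial.X + Polynomial.C b) (Polynomial.C c * Polynomial.X + Polynomial.C d) N := by
  have hP0 : 0 < P := by linarith
  have hL0 : 0 < L := by linarith
  have hLP : L ^ (2 * D + 1) = P ^ 2 * L := by rw [hP]; ring
  obtain ⟨s1, s2, s3, -, -⟩ := size1 hP1 hL8 hMP hNP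
  have hc0 : (1 : ℝ) ≤ c := by exact_mod_cast hc1
  have hdN : d + 1 ≤ N := by
    have h1 : (d : ℝ) + 1 ≤ N := by linarith [hd.2]
    exact_mod_cast h1
  have hcb : -(P * P) ≤ (c : ℝ) * b ∧ (c : ℝ) * b ≤ P * P := by
    have h1 : |(c : ℝ) * b| ≤ P * P := by
      rw [abs_mul, abs_of_pos (by linarith : (0 : ℝ) < c)]
      exact mul_le_mul hc2 (abs_le.2 hb) (abs_nonneg _) hP0.le
    exact abs_le.1 h1
  have hs0 : 0 < s := by
    have h1 : (0 : ℝ) < s := by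
      rw [hs]
      push_cast
      nlinarith [hd.2, hcb.1]
    exact_mod_cast h1
  obtain ⟨x, hx⟩ : ∃ x : ℕ, x = XN (Polynomial.C c * Polynomial.X + Polynomial.C d) N := ⟨_, rfl⟩
  have hxz : (x : ℤ) = ((N : ℤ) - d - 1) / c := by rw [hx]; exact XN_eq c d N hc1 hdN
  have hyz : (x : ℤ) + b = (s - 1) / c := by
    rw [hxz, hs]
    have e : (N : ℤ) - d + c * b - 1 = ((N : ℤ) - d - 1) + c * b := by ring
    rw [e, Int.add_mul_ediv_left _ _ (by omega)]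
  have hy0 : 0 ≤ (x : ℤ) + b := by
    rw [hyz]
    exact Int.ediv_nonneg (by omega) (by omega)
  obtain ⟨y, hy⟩ : ∃ y : ℕ, (y : ℤ) = x + b := ⟨((x : ℤ) + b).toNat, Int.toNat_of_nonneg hy0⟩
  have hyr : (y : ℝ) = x + b := by exact_mod_cast hy
  have hx1 : (H : ℝ) / (P ^ 2 * L) + P ≤ x := by
    apply size2 (c := (c : ℝ)) (d := (d : ℝ)) hP1 hL8 hMP hNP (Nat.cast_nonneg x) hc2 hd.2
    have h2 := Int.lt_ediv_add_one_mul_self ((N : ℤ) - d - 1) (by omega : 0 < c)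
    rw [← hxz] at h2
    exact_mod_cast h2
  have hxN : (x : ℝ) ≤ N - d - 1 := by
    have h1 : (x : ℤ) ≤ (N : ℤ) - d - 1 := by
      rw [hxz]
      apply Int.ediv_le_self
      omega
    exact_mod_cast h1
  have hx2 : (x : ℝ) ≤ 4 * H := by linarith [hd.1]
  have hy4 : y ≤ 4 * H := by
    have h2 : (y : ℝ) ≤ 4 * H := by
      rw [hyr]
      linarith [hd.1, hb.2]
    exact_mod_cast h2
  have hxx : (H : ℝ) / (P ^ 2 * L) ≤ x := by linarith
  have hx0 : (0 : ℝ) < x := lt_of_lt_of_le (by positivity) hxx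
  obtain ⟨e1, e2, e3⟩ := log_ineq (k := 2 * D + 1) hε0 hε1 hH0 hL hLbig (by rw [hLP]; exact hxx) hx2
  have hAdm := adm_eq b c d N s hs hadm
  have hDist := dist_eq c s hs0.ne'
  have hcabs : ((-c).natAbs : ℝ) = c := by
    rw [Int.natAbs_neg, Nat.cast_natAbs, abs_of_pos (by omega : 0 < c)]
  obtain ⟨S, hS0, hS1, hS2⟩ := hHW (fun _ => -c) (fun _ => by omega) (fun _ => by
    rw [← hL, ← hP, hcabs]
    exact hc2) hAdm hDist
  have hloc := loc_of hAdm hDist (consA_ne _ (fun _ => by omega))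
  have hδS : δ ≤ S := ge_of_tendsto' hS1 (fun z => hlow _ _ hloc z)
  have hwin := hS2 0 y (Nat.zero_le _) hy4 (by
    rw [← hL, Nat.cast_zero, sub_zero, hyr, hLP]
    linarith [hb.1])
  rw [Nat.cast_zero, sub_zero, ← hL, cn_card] at hwin
  refine ⟨S, hS0, ?_, ?_⟩
  · rw [← SS_eq b c d N s hs]
    exact hS1
  rw [← hx, Q_eq b c d N s hs hc1 y (by rw [hy, hyz])]
  obtain ⟨c1, c2⟩ := cn_sub b c s y
  obtain ⟨q, hq⟩ : ∃ q : ℕ, q = ((Ioc 0 y).filter (fun p : ℕ => (p.Prime ∧ (-c * (p : ℤ) + s).natAbs.Prime) ∧ b < p)).card :=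
    ⟨_, rfl⟩
  obtain ⟨w, hw⟩ : ∃ w : ℕ, w = ((Ioc 0 y).filter (fun p : ℕ => p.Prime ∧ (-c * (p : ℤ) + s).natAbs.Prime)).card :=
    ⟨_, rfl⟩
  rw [← hq, ← hw] at c1 c2
  rw [← hw] at hwin
  rw [← hq]
  have hbP : |(b : ℝ)| ≤ P := abs_le.2 hb
  have c1' : (q : ℝ) ≤ w := by exact_mod_cast c1
  have c2' : (w : ℝ) ≤ q + P := by
    have h1 : (w : ℝ) ≤ q + (b.natAbs : ℝ) := by exact_mod_cast c2
    have h2 : (b.natAbs : ℝ) = |(b : ℝ)| := by rw [Nat.cast_natAbs, Int.cast_abs]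
    rw [h2] at h1
    linarith
  obtain ⟨z1, z2⟩ := size3 hε0 hδ hδS hP1 hL8 hLε hLδ hMP hNP hxx hx0 e3 e2
  refine fin_ineq (L := L) (l := Real.log x) (cn := w) (b := P) (y := y) hε0 hε1 hεε hS0 hx0 hL0 e3 ?_ e1 ?_ z2 hwin
  · rw [hyr, add_sub_cancel_left]
    linarith
  · rw [abs_le]
    constructor <;> linarith

/-- from the formula in the windows to Schinzel's formula -/
theorem core (D : ℕ) (ε : ℝ) (hε : 0 < ε) : ∃ ε₀ : ℝ, 0 < ε₀ ∧ ∃ H₀ : ℕ, ∀ H : ℕ, H₀ ≤ H → ∀ N : ℕ,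
    (H : ℝ) / Real.log H ^ D ≤ N → (N : ℝ) ≤ 3 * H → ∀ b c d : ℤ, 1 ≤ c → (c : ℝ) ≤ Real.log H ^ D →
    |(b : ℝ)| ≤ Real.log H ^ D → |(d : ℝ)| ≤ Real.log H ^ D →
    HW (k := 1) (m := 2) consA consB ε₀ (2 * D + 1) 4 D H (fun _ => (N : ℤ) - d + c * b) →
    Admissible (Polynomial.X + Polynomial.C b) (Polynomial.C c * Polynomial.X + Polynomial.C d) N →
    Formula ε (Polynomial.X + Polynomial.C b) (Polynomial.C c * Polynomial.X + Polynomial.C d) N := by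
  obtain ⟨δ, hδ, hlow⟩ := Gz_low 2 (by omega)
  obtain ⟨ε₀, hε₀⟩ : ∃ e, e = min ε 1 / 6 := ⟨_, rfl⟩
  have hε0 : 0 < ε₀ := by rw [hε₀]; have := lt_min hε one_pos; positivity
  have hε1 : ε₀ ≤ 1 / 2 := by rw [hε₀]; have := min_le_right ε 1; linarith
  have hεε : 6 * ε₀ ≤ ε := by rw [hε₀]; have := min_le_left ε 1; linarith
  obtain ⟨K, hK⟩ : ∃ K : ℝ, K = (6 * ((2 * D + 1 : ℕ) : ℝ) / ε₀ + 6 / ε₀ + 1) ^ 2 + 8 + 1 / ε₀ + 4 / (ε₀ * δ) := ⟨_, rfl⟩
  obtain ⟨H₁, hH₁⟩ := eventually_atTop.1 (Pool.Agent.X31.CT.log_pow_le (3 * D + 5))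
  obtain ⟨H₂, hH₂⟩ := exists_nat_ge (Real.exp K)
  refine ⟨ε₀, hε0, H₁ + H₂ + 3, fun H hH N hN1 hN2 b c d hc1 hc2 hb hd hHW hadm => ?_⟩
  have hM := hH₁ H (by omega)
  have hH0 : (0 : ℝ) < H := by exact_mod_cast (by omega : 0 < H)
  have hLK : K ≤ Real.log H := by
    rw [← Real.log_exp K]
    apply Real.log_le_log (Real.exp_pos K)
    exact hH₂.trans (by exact_mod_cast (by omega : H₂ ≤ H))
  have k1 : 0 ≤ 1 / ε₀ := by positivity
  have k2 : 0 ≤ 4 / (ε₀ * δ) := by positivity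
  have k3 : 0 ≤ (6 * ((2 * D + 1 : ℕ) : ℝ) / ε₀ + 6 / ε₀ + 1) ^ 2 := by positivity
  have hL8 : 8 ≤ Real.log H := by linarith
  have hL1 : 1 ≤ Real.log H := by linarith
  have hP1 : 1 ≤ Real.log H ^ D := one_le_pow₀ hL1
  refine core_aux D H N b c d _ rfl hlow hδ hε0 hε1 hεε rfl rfl (by linarith) hL8 ?_ ?_ hH0 hP1 ?_ ?_ hN2 hc1 hc2
    (abs_le.1 hb) (abs_le.1 hd) hHW hadm
  · have : 1 / ε₀ ≤ Real.log H := by linarith
    rw [div_le_iff₀ hε0] at this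
    linarith
  · have : 4 / (ε₀ * δ) ≤ Real.log H := by linarith
    rw [div_le_iff₀ (by positivity)] at this
    linarith
  · refine le_trans (le_of_eq ?_) hM
    ring
  · rwa [div_le_iff₀ (by linarith)] at hN1

/-- For almost all members of the families of a scheme, Schinzel's formula holds for all `N` near the member. -/
theorem main {ι : Type} {P : ℕ → ℕ → Finset ι → (ι → ℝ) → Prop} (HS : Sch P) (D U : ℕ) (ε : ℝ) (hε : 0 < ε) :
    ∃ H₀ : ℕ, ∀ H : ℕ, H₀ ≤ H → ∀ (A : Finset ι) (φ : ι → ℝ), P D H A φ → (∀ n ∈ A, |φ n| ≤ H) →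
      ∃ E : Finset ι, (E.card : ℝ) ≤ A.card / Real.log H ^ U ∧ ∀ n ∈ A, n ∉ E →
        ∀ N : ℕ, (H : ℝ) / Real.log H ^ D ≤ N → |(N : ℝ) - φ n| ≤ Real.log H ^ D → Holds ε D H N := by
  obtain ⟨ε₀, hε0, H₁, h1⟩ := core D ε hε
  obtain ⟨H₂, h2⟩ := single HS (2 * D + 2) U _ (fun h _ => famO_sys h (2 * D + 1) 4 D ε₀ hε0)
  obtain ⟨H₃, hH₃⟩ := eventually_atTop.1 (Pool.Agent.X31.CT.log_pow_le D)
  refine ⟨H₁ + H₂ + H₃ + 8, fun H hH A φ hP hφ => ?_⟩
  have hL1 : 1 ≤ Real.log H := Pool.Agent.TH935.TF.one_le_log (by omega)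
  have hL2 : 2 ≤ Real.log H := by
    have h3 : Real.exp 2 ≤ 8 := by
      have := Real.exp_one_lt_d9
      have e : Real.exp 2 = Real.exp 1 * Real.exp 1 := by rw [← Real.exp_add]; norm_num
      have := Real.exp_pos 1
      nlinarith
    rw [← Real.log_exp 2]
    apply Real.log_le_log (Real.exp_pos _)
    exact h3.trans (by exact_mod_cast (by omega : 8 ≤ H))
  have hmono : ∀ k : ℕ, P (D + k) H A φ := by
    intro k
    induction k with
    | zero => exact hP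
    | succ k ih => exact HS.mono _ _ _ _ hL1 ih
  obtain ⟨E, hE1, hE2⟩ := h2 H (by omega) A φ (by
    have := hmono (D + 2)
    rwa [show D + (D + 2) = 2 * D + 2 by ring] at this)
  refine ⟨E, hE1, fun n hn hnE N hN1 hN2 b c d hc1 hc2 hb hd hadm => ?_⟩
  have hHL := hH₃ H (by omega)
  have hN3 : (N : ℝ) ≤ 3 * H := by
    have h3 := hφ n hn
    rw [abs_le] at h3 hN2
    have hH0 : (0 : ℝ) ≤ H := Nat.cast_nonneg H
    linarith [h3.2, hN2.2]
  apply h1 H (by omega) N hN1 hN3 b c d hc1 hc2 hb hd ?_ hadm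
  apply hE2 n hn hnE
  obtain ⟨Q, hQ⟩ : ∃ Q, Q = Real.log (H : ℝ) ^ D := ⟨_, rfl⟩
  have hQ1 : 1 ≤ Q := by rw [hQ]; exact one_le_pow₀ hL1
  rw [← hQ] at hN2 hc2 hb hd
  have hcb : |(c : ℝ) * b| ≤ Q * Q := by
    have hc0 : (1 : ℝ) ≤ c := by exact_mod_cast hc1
    rw [abs_mul, abs_of_pos (by linarith : (0 : ℝ) < c)]
    exact mul_le_mul hc2 hb (abs_nonneg _) (by linarith)
  have h5 : Real.log (H : ℝ) ^ (2 * D + 2) = Q * Q * Real.log H ^ 2 := by rw [hQ]; ring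
  rw [h5]
  have h6 : (4 : ℝ) ≤ Real.log H ^ 2 := by nlinarith
  have h7 : Q * Q * 4 ≤ Q * Q * Real.log H ^ 2 := mul_le_mul_of_nonneg_left h6 (by positivity)
  have h8 : Q ≤ Q * Q := by nlinarith
  push_cast
  rw [abs_le] at hN2 hd hcb ⊢
  constructor
  · linarith [hN2.1, hd.2, hcb.1]
  · linarith [hN2.2, hd.1, hcb.2]

end Pool.Agent.X275.GB.SL
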